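import Pool.Agent.TH336.ER.Poly
import Pool.Agent.TH336.OL.A3

/-!
Moments of zeta on every ray: from Gaussian centres to windows.
-/

set_option autoImplicit false

open Complex MeasureTheory Set Filter Topology

namespace Pool.Agent.TH336.ER

open Pool.Agent.W188.QS Pool.Agent.W188.GP

/-- number of sample points -/
theorem pts_card {c : ℂ} (hc : ‖c‖ = 1) (S : Finset ℝ) (T : ℝ) (hT : 1000 ≤ T)
    (hS : ∀ t ∈ S, t ∈ PP c 1 ∧ t ≤ 4 * T) : (S.card : ℝ) ≤ T ^ 2 := by
  obtain ⟨γ, hγ⟩ := Pool.Agent.W188.MZ.pts_uniform a_tau a_line hc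
  obtain ⟨h1, h2⟩ := hγ 1 le_rfl (fun _ => (1:ℝ)) 100 (4*T) le_rfl (by linarith)
  rw [pow_one] at h1 h2
  have h3 := Pool.Agent.TH336.OL.card_le a_tau γ 100 (4*T) (4*T) le_rfl (by linarith) le_rfl
  have h4 : (S.card:ℝ) ≤ ∑ᶠ t ∈ PP c 1 ∩ Ioc 100 (4*T), (1:ℝ) := by
    rw [finsum_mem_eq_finite_toFinset_sum _ h1, Finset.sum_const, nsmul_eq_mul, mul_one]
    have : S ⊆ h1.toFinset := by
      intro t ht
      rw [Set.Finite.mem_toFinset]
      exact ⟨(hS t ht).1, (hS t ht).1.1, (hS t ht).2⟩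
    exact_mod_cast Finset.card_le_card this
  have h5 : (∑ᶠ t ∈ PP c 1 ∩ Ioc 100 (4*T), (1:ℝ)) = ((nd γ 100 (4*T)).card : ℝ) := by
    refine h2.trans ?_
    simp
  rw [h5] at h4
  refine h4.trans (h3.trans ?_)
  have hs0 : 0 ≤ √T := Real.sqrt_nonneg _
  have hs2 : √T ^ 2 = T := Real.sq_sqrt (by linarith)
  have hs31 : 31 ≤ √T := by
    apply Real.le_sqrt_of_sq_le
    linarith
  have h6 : Real.log (4 * T) ≤ 4 * √T := by
    have e1 : 4 * T = (2 * √T) ^ 2 := by rw [mul_pow, hs2]; norm_num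
    rw [e1, Real.log_pow]
    have := Real.log_le_sub_one_of_pos (show 0 < 2 * √T by linarith)
    push_cast
    linarith
  have h7 : Real.log (4 * T) / 6 * (4 * T - 100) ≤ 4 * √T / 6 * (4 * √T ^ 2) := by
    rw [hs2]
    apply mul_le_mul (by linarith) (by linarith) (by linarith) (by positivity)
  have h8 : T ^ 2 = √T ^ 4 := by
    rw [← hs2]
    rw [Real.sqrt_sq hs0]
    ring
  rw [h8]
  nlinarith [pow_nonneg hs0 3, pow_nonneg hs0 2]

/-- the positive part of the coordinate of zeta along `u` -/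
noncomputable def gp (k : ℝ) (u : ℂ) (t : ℝ) : ℝ :=
  (max (riemannZeta (cp t) * (starRingEnd ℂ) u).re 0) ^ k

theorem gp_nonneg (k : ℝ) (u : ℂ) (t : ℝ) : 0 ≤ gp k u t :=
  Real.rpow_nonneg (le_max_right _ _) _

theorem gp_le {k : ℝ} (hk : 1 ≤ k) {u : ℂ} (hu : ‖u‖ = 1) {t : ℝ} (ht : 100 ≤ t) :
    gp k u t ≤ (t ^ 2) ^ k := by
  refine Real.rpow_le_rpow (le_max_right _ _) ?_ (by linarith)
  apply max_le _ (by positivity)
  refine (Complex.re_le_norm _).trans ?_
  rw [norm_mul, RCLike.norm_conj, hu, mul_one]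
  exact Pool.Agent.TH336.OL.ZZ_le_sq ht

theorem wg_le {T Δ t : ℝ} (ht : 50 ≤ t) : wg T Δ t ≤ 2 * Real.pi * gg T Δ t := by
  have h1 := (a_line.1 t ht).2.2
  unfold wg
  refine mul_le_mul_of_nonneg_right ?_ (Real.exp_pos _).le
  exact div_le_self (by positivity) h1

theorem wg_nonneg {T Δ t : ℝ} (ht : 50 ≤ t) : 0 ≤ wg T Δ t := by
  have h1 := (a_line.1 t ht).2.2
  unfold wg gg
  positivity

/-- the points far from the centre are negligible -/
theorem far_sum {k : ℝ} (hk : 1 ≤ k) {u : ℂ} (hu : ‖u‖ = 1) (S : Finset ℝ) (T T' U D C : ℝ)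
    (hT : 1000 ≤ T) (hC : 8 * (k + 1) ≤ C) (hU : 0 < U) (hD : D = U / (C * √(Real.log T)))
    (hS : ∀ t ∈ S, t ∈ PP ((starRingEnd ℂ) u ^ 2) 1 ∧ t ≤ 4 * T)
    (hfar : ∀ t ∈ S, U / 4 ≤ |t - T'|) :
    ∑ t ∈ S, wg T' D t * gp k u t ≤ 1 := by
  have hT0 : 0 < T := by linarith
  have hlT : 0 < Real.log T := Real.log_pos (by linarith)
  have hs : 0 < √(Real.log T) := Real.sqrt_pos.2 hlT
  have hs2 : √(Real.log T) ^ 2 = Real.log T := Real.sq_sqrt hlT.le
  have hC0 : 0 < C := by linarith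
  have hc : ‖(starRingEnd ℂ) u ^ 2‖ = 1 := by rw [norm_pow, RCLike.norm_conj, hu, one_pow]
  have hcard := pts_card hc S T hT hS
  have hD0 : 0 < D := by rw [hD]; positivity
  have h1 : ∀ t ∈ S, wg T' D t * gp k u t ≤
      2 * Real.pi * T ^ (-(4 * k + 4)) * ((4 * T) ^ 2) ^ k := by
    intro t ht
    obtain ⟨⟨h100, -⟩, h4⟩ := hS t ht
    have e1 : gg T' D t ≤ T ^ (-(4 * k + 4)) := by
      unfold gg
      rw [Real.rpow_def_of_pos hT0]
      apply Real.exp_le_exp.2
      have e2 : C * √(Real.log T) / 4 ≤ |t - T'| / D := by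
        rw [le_div_iff₀ hD0, hD]
        have : C * √(Real.log T) / 4 * (U / (C * √(Real.log T))) = U / 4 := by
          field_simp
        rw [this]
        exact hfar t ht
      have e3 : (C * √(Real.log T) / 4) ^ 2 ≤ ((t - T') / D) ^ 2 := by
        rw [← sq_abs ((t - T') / D), abs_div, abs_of_pos hD0]
        exact pow_le_pow_left₀ (by positivity) e2 2
      have e4 : (C * √(Real.log T) / 4) ^ 2 = C ^ 2 / 16 * Real.log T := by
        rw [div_pow, mul_pow, hs2]
        ring
      have e5 : 4 * k + 4 ≤ C ^ 2 / 16 := by nlinarith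
      have e6 : (4 * k + 4) * Real.log T ≤ C ^ 2 / 16 * Real.log T :=
        mul_le_mul_of_nonneg_right e5 hlT.le
      linarith
    have e2 : wg T' D t ≤ 2 * Real.pi * T ^ (-(4 * k + 4)) :=
      (wg_le (by linarith)).trans (mul_le_mul_of_nonneg_left e1 (by positivity))
    have e3 : gp k u t ≤ ((4 * T) ^ 2) ^ k := by
      refine (gp_le hk hu (by linarith)).trans ?_
      apply Real.rpow_le_rpow (by positivity) _ (by linarith)
      exact pow_le_pow_left₀ (by linarith) h4 2
    exact mul_le_mul e2 e3 (gp_nonneg _ _ _) (by positivity)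
  have h2 := Finset.sum_le_sum h1
  rw [Finset.sum_const, nsmul_eq_mul] at h2
  refine h2.trans ?_
  have h3 : ((4 * T) ^ 2) ^ k ≤ T ^ (4 * k) := by
    have e1 : (4 * T) ^ 2 ≤ T ^ (4 : ℝ) := by
      have : T ^ (4:ℝ) = T ^ 4 := by exact_mod_cast Real.rpow_natCast T 4
      rw [this]
      have h16 : 16 ≤ T ^ 2 := by nlinarith
      calc (4 * T) ^ 2 = 16 * T ^ 2 := by ring
        _ ≤ T ^ 2 * T ^ 2 := mul_le_mul_of_nonneg_right h16 (by positivity)
        _ = T ^ 4 := by ring
    rw [Real.rpow_mul hT0.le]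
    exact Real.rpow_le_rpow (by positivity) e1 (by linarith)
  calc (S.card : ℝ) * (2 * Real.pi * T ^ (-(4 * k + 4)) * ((4 * T) ^ 2) ^ k)
      ≤ T ^ 2 * (2 * Real.pi * T ^ (-(4 * k + 4)) * T ^ (4 * k)) := by
        apply mul_le_mul hcard _ (by positivity) (by positivity)
        exact mul_le_mul_of_nonneg_left h3 (by positivity)
    _ = 2 * Real.pi * T ^ (-(2:ℝ)) := by
        have e1 : T ^ 2 = T ^ (2:ℝ) := by exact_mod_cast (Real.rpow_natCast T 2).symm
        have e2 : T ^ (2:ℝ) * (T ^ (-(4 * k + 4)) * T ^ (4 * k)) = T ^ (-(2:ℝ)) := by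
          rw [← Real.rpow_add hT0, ← Real.rpow_add hT0]
          congr 1
          ring
        rw [e1, ← e2]
        ring
    _ ≤ 1 := by
        have e1 : T ^ (-(2:ℝ)) = (T ^ 2)⁻¹ := by
          rw [Real.rpow_neg hT0.le]
          congr 1
          exact_mod_cast Real.rpow_natCast T 2
        rw [e1, ← div_eq_mul_inv, div_le_one (by positivity)]
        nlinarith [Real.pi_le_four]

/-- integral of the Gaussian over the centre -/
theorem gg_int {D : ℝ} (hD : 0 < D) (t a b : ℝ) (hab : a ≤ b) :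
    ∫ T' in a..b, gg T' D t ≤ √Real.pi * D := by
  have h1 : ∀ T' : ℝ, gg T' D t = Real.exp (-(1 / D ^ 2) * (T' - t) ^ 2) := by
    intro T'
    unfold gg
    congr 1
    field_simp
    ring
  have hint0 : Integrable (fun x : ℝ => Real.exp (-(1 / D ^ 2) * x ^ 2)) :=
    integrable_exp_neg_mul_sq (by positivity)
  have hint : Integrable (fun x : ℝ => Real.exp (-(1 / D ^ 2) * (x - t) ^ 2)) :=
    hint0.comp_sub_right t
  have h2 : ∫ x : ℝ, Real.exp (-(1 / D ^ 2) * (x - t) ^ 2) = √Real.pi * D := by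
    have e1 := integral_sub_right_eq_self (μ := volume)
      (fun x : ℝ => Real.exp (-(1 / D ^ 2) * x ^ 2)) t
    rw [e1, integral_gaussian]
    rw [div_div_eq_mul_div, div_one, Real.sqrt_mul Real.pi_pos.le, Real.sqrt_sq hD.le]
  simp_rw [h1]
  rw [intervalIntegral.integral_of_le hab, ← h2]
  exact setIntegral_le_integral hint (Filter.Eventually.of_forall fun x => (Real.exp_pos _).le)

theorem finsum_rays {k : ℝ} (hk : 1 ≤ k) {u : ℂ} (hu : ‖u‖ = 1) {T U : ℝ} (hT : 1000 ≤ T)
    (P : Finset ℝ) (hP : ∀ t, t ∈ P ↔ t ∈ PP ((starRingEnd ℂ) u ^ 2) 1 ∧ T < t ∧ t ≤ T + U) :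
    ∑ t ∈ P, gp k u t = ∑ᶠ t ∈ {t : ℝ | T < t ∧ t ≤ T + U ∧ ∃ r : ℝ, 0 < r ∧
          riemannZeta (1 / 2 + t * I) = r * u}, ‖riemannZeta (1 / 2 + t * I)‖ ^ k := by
  classical
  have huu : u * (starRingEnd ℂ) u = 1 := by
    rw [Complex.mul_conj', hu]
    norm_num
  have hu0 : u ≠ 0 := by
    intro h
    rw [h] at hu
    simp at hu
  have hcc : Pool.Agent.TH336.OL.cc u = (starRingEnd ℂ) u ^ 2 := by
    unfold Pool.Agent.TH336.OL.cc
    rw [hu]
    congr 1
    rw [Complex.ofReal_one, div_one]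
    exact (eq_inv_of_mul_eq_one_right huu).symm
  have h1 : (∑ᶠ t ∈ {t : ℝ | T < t ∧ t ≤ T + U ∧ ∃ r : ℝ, 0 < r ∧
          riemannZeta (1 / 2 + t * I) = r * u}, ‖riemannZeta (1 / 2 + t * I)‖ ^ k) =
      ∑ᶠ t ∈ (P : Set ℝ), gp k u t := by
    apply finsum_congr
    intro t
    by_cases ht : t ∈ {t : ℝ | T < t ∧ t ≤ T + U ∧ ∃ r : ℝ, 0 < r ∧
          riemannZeta (1 / 2 + t * I) = r * u}
    · obtain ⟨ht1, ht2, r, hr, hz⟩ := ht
      have hz' : riemannZeta (cp t) = r * u := hz
      have htP : t ∈ (P : Set ℝ) := by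
        rw [Finset.mem_coe, hP]
        refine ⟨?_, ht1, ht2⟩
        rw [← hcc]
        have hpts : t ∈ Pool.Agent.TH336.OL.Pts u := ⟨by linarith, r, hr.ne', hz⟩
        exact (Pool.Agent.TH336.OL.Pts_iff hu0 (Pool.Agent.TH336.OL.Pts_ne hu0 hpts)).1 hpts
      have e1 : gp k u t = ‖riemannZeta (1 / 2 + t * I)‖ ^ k := by
        unfold gp
        rw [hz', hz, mul_assoc, huu, mul_one, Complex.ofReal_re, max_eq_left hr.le, norm_mul, hu,
          mul_one, Complex.norm_real, Real.norm_eq_abs, abs_of_pos hr]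
      rw [finsum_eq_if, finsum_eq_if, if_pos htP, if_pos ⟨ht1, ht2, r, hr, hz⟩, e1]
    · rw [finsum_eq_if, finsum_eq_if, if_neg ht]
      split_ifs with htP
      · rw [Finset.mem_coe, hP] at htP
        obtain ⟨⟨h100, hw⟩, ht1, ht2⟩ := htP
        have hre := line_real a_line hu (by linarith : 1 ≤ t) hw
        set r := (riemannZeta (cp t) * (starRingEnd ℂ) u).re with hr
        have hz : riemannZeta (cp t) = r * u := by
          rw [← hre, mul_assoc, mul_comm ((starRingEnd ℂ) u) u, huu, mul_one]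
        have hr0 : r ≤ 0 := by
          by_contra hcon
          push Not at hcon
          exact ht ⟨ht1, ht2, r, hcon, hz⟩
        unfold gp
        rw [← hr, max_eq_right hr0, Real.zero_rpow (by linarith)]
      · rfl
  rw [h1, finsum_mem_coe_finset]

theorem lam_lower {T t : ℝ} (hT : 0 < T) (hL6 : 6 ≤ Real.log T) (ht : 100 < t) (hTt : T ≤ t) :
    Real.log T / 2 ≤ lam t := by
  obtain ⟨-, hlam, hlam1⟩ := a_line.1 t (by linarith)
  have ht0 : 0 < t := by linarith
  have e1 : Real.log T - 2 ≤ Real.log (t / (2 * Real.pi)) := by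
    rw [Real.log_div ht0.ne' (by positivity)]
    have e2 : Real.log T ≤ Real.log t := Real.log_le_log hT hTt
    have e3 : Real.log (2 * Real.pi) ≤ 2 := by
      rw [Real.log_le_iff_le_exp (by positivity)]
      have e4 : Real.exp 2 = Real.exp 1 ^ 2 := by rw [← Real.exp_nat_mul]; norm_num
      rw [e4]
      have e5 := Real.exp_one_gt_d9
      have e6 := Real.pi_lt_d2
      nlinarith
    linarith
  have e2 : 14 / t ≤ 1 := by
    rw [div_le_one ht0]
    linarith
  have e3 := (abs_le.1 hlam).1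
  linarith

theorem window (k κ : ℝ) (hk : 1 ≤ k) (hκ : 0 ≤ κ) (h : StCentre k κ) : StRays k κ := by
  obtain ⟨c₁, B, T₀, hc1, hB, hC⟩ := h
  set C : ℝ := 2 * B + 8 * (k + 1) with hCdef
  set M : ℝ := 4 * C + 2 / c₁ + 10 with hM
  have hpi : 0 < Real.pi := Real.pi_pos
  have hspi : 0 < √Real.pi := Real.sqrt_pos.2 hpi
  have h2k : (0 : ℝ) < 2 ^ κ := Real.rpow_pos_of_pos (by norm_num) _
  have hC1 : 1 ≤ C := by linarith
  have hC0 : 0 < C := by linarith
  have hc2 : 0 < 2 / c₁ := by positivity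
  refine ⟨c₁ / (16 * Real.pi * √Real.pi * 2 ^ κ), 4, max (max T₀ 1000) (Real.exp (M ^ 2)),
    by positivity, ?_⟩
  intro T U hT hU1 hU2 u hu
  have hT0 : T₀ ≤ T := le_trans (le_max_left _ _) (le_trans (le_max_left _ _) hT)
  have h1000 : 1000 ≤ T := le_trans (le_max_right _ _) (le_trans (le_max_left _ _) hT)
  have hTM : Real.exp (M ^ 2) ≤ T := le_trans (le_max_right _ _) hT
  have hTp : 0 < T := by linarith
  set L := Real.log T with hL
  have hML : M ^ 2 ≤ L := by
    rw [hL, Real.le_log_iff_exp_le hTp]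
    exact hTM
  have hM10 : 10 ≤ M := by linarith
  have hL6 : 6 ≤ L := by nlinarith
  have hL0 : 0 < L := by linarith
  set s := √L with hs
  have hs2 : s ^ 2 = L := Real.sq_sqrt hL0.le
  have hsM : M ≤ s := Real.le_sqrt_of_sq_le hML
  have hs0 : 0 < s := by linarith
  have hUs : s ^ 8 ≤ U := by
    have e1 : L ^ (4:ℝ) = L ^ 4 := by exact_mod_cast Real.rpow_natCast L 4
    rw [e1, ← hs2] at hU1
    calc s ^ 8 = (s ^ 2) ^ 4 := by ring
      _ ≤ U := hU1
  have hU0 : 0 < U := lt_of_lt_of_le (by positivity) hUs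
  set D := U / (C * s) with hD
  have hD0 : 0 < D := by positivity
  have hCs : C ≤ s := by linarith
  have hDs : s ^ 6 ≤ D := by
    rw [hD, le_div_iff₀ (by positivity)]
    calc s ^ 6 * (C * s) ≤ s ^ 6 * (s * s) := by
          apply mul_le_mul_of_nonneg_left _ (by positivity)
          exact mul_le_mul_of_nonneg_right hCs hs0.le
      _ = s ^ 8 := by ring
      _ ≤ U := hUs
  have hs1 : 1 ≤ s := by linarith
  have hsD : s ≤ D := by
    have : s ^ 1 ≤ s ^ 6 := pow_le_pow_right₀ hs1 (by norm_num)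
    rw [pow_one] at this
    linarith
  have hlogD1 : 1 ≤ Real.log D := by
    rw [Real.le_log_iff_exp_le hD0]
    have := Real.exp_one_lt_d9
    linarith
  have hlogDk : 1 ≤ Real.log D ^ κ := Real.one_le_rpow hlogD1 hκ
  have hcD : 2 ≤ c₁ * (D * Real.log D ^ κ) := by
    have e1 : 2 / c₁ ≤ D := by linarith
    rw [div_le_iff₀ hc1] at e1
    have e2 : D ≤ D * Real.log D ^ κ := le_mul_of_one_le_right hD0.le hlogDk
    nlinarith
  have hU1' : 1 ≤ U := le_trans (one_le_pow₀ hs1) hUs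
  have hlogU : Real.log U ≤ 2 * Real.log D := by
    have e1 : U ≤ D ^ 2 := by
      rw [hD, div_pow, le_div_iff₀ (by positivity)]
      have e2 : (C * s) ^ 2 ≤ s ^ 8 := by
        calc (C * s) ^ 2 ≤ (s * s) ^ 2 :=
              pow_le_pow_left₀ (by positivity) (mul_le_mul_of_nonneg_right hCs hs0.le) 2
          _ = s ^ 4 := by ring
          _ ≤ s ^ 8 := pow_le_pow_right₀ hs1 (by norm_num)
      calc U * (C * s) ^ 2 ≤ U * U := mul_le_mul_of_nonneg_left (e2.trans hUs) hU0.le
        _ = U ^ 2 := by ring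
    have e3 := Real.log_le_log hU0 e1
    rw [Real.log_pow] at e3
    push_cast at e3
    exact e3
  have hlogU0 : 0 ≤ Real.log U := Real.log_nonneg hU1'
  -- the points
  set c : ℂ := (starRingEnd ℂ) u ^ 2 with hc
  have hcn : ‖c‖ = 1 := by rw [hc, norm_pow, RCLike.norm_conj, hu, one_pow]
  have hfin : (PP c 1 ∩ Iic (T + U)).Finite :=
    a_line.2.2.2.2.2.2.2.2.2 c 1 hcn le_rfl (T + U)
  have hfin2 : {t : ℝ | t ∈ PP c 1 ∧ T < t ∧ t ≤ T + U}.Finite :=
    hfin.subset fun t ht => ⟨ht.1, ht.2.2⟩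
  set P : Finset ℝ := hfin2.toFinset with hPdef
  have hP : ∀ t, t ∈ P ↔ t ∈ PP c 1 ∧ T < t ∧ t ≤ T + U := fun t => by
    rw [hPdef, Set.Finite.mem_toFinset]
    rfl
  -- one centre
  have hcen : ∀ T' ∈ Icc (T + U / 4) (T + 3 * U / 4),
      c₁ / 2 * (D * Real.log D ^ κ) ≤ ∑ t ∈ P, wg T' D t * gp k u t := by
    intro T' ⟨hT'1, hT'2⟩
    have hT'0 : 0 < T' := by linarith
    have hT'2T : T' ≤ 2 * T := by linarith
    have hlogT' : Real.log T' ≤ 2 * L := by
      have e1 := Real.log_le_log hT'0 hT'2T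
      rw [Real.log_mul (by norm_num) hTp.ne'] at e1
      have e2 := Real.log_two_lt_d9
      nlinarith
    have hlogT'0 : 0 ≤ Real.log T' := Real.log_nonneg (by linarith)
    have e1 : Real.log T' ^ 2 ≤ D := by
      calc Real.log T' ^ 2 ≤ (2 * L) ^ 2 := pow_le_pow_left₀ hlogT'0 hlogT' 2
        _ = 2 ^ 2 * s ^ 4 := by rw [← hs2]; ring
        _ ≤ s ^ 2 * s ^ 4 := by
          apply mul_le_mul_of_nonneg_right _ (by positivity)
          exact pow_le_pow_left₀ (by norm_num) (by linarith) 2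
        _ = s ^ 6 := by ring
        _ ≤ D := hDs
    have e2 : B * D * √(Real.log T') ≤ T' := by
      have e3 : √(Real.log T') ≤ 2 * s := by
        rw [Real.sqrt_le_left (by positivity), mul_pow, hs2]
        linarith
      calc B * D * √(Real.log T') ≤ B * D * (2 * s) :=
            mul_le_mul_of_nonneg_left e3 (by positivity)
        _ = 2 * B / C * U := by
            rw [hD]
            field_simp
        _ ≤ 1 * U := by
            apply mul_le_mul_of_nonneg_right _ hU0.le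
            rw [div_le_one hC0]
            linarith
        _ ≤ T' := by linarith
    obtain ⟨α, β, S, hα, hβ, hS, hmain⟩ := hC u T' D hu (by linarith) e1 e2
    have hS4 : ∀ t ∈ S, t ≤ 4 * T := by
      intro t ht
      have := ((hS t).1 ht).2.2
      have h3 := (abs_le.1 hβ).2
      linarith
    have hsplit := Finset.sum_filter_add_sum_filter_not S (fun t => T < t ∧ t ≤ T + U)
      (fun t => wg T' D t * gp k u t)
    have hin : ∑ t ∈ S with (T < t ∧ t ≤ T + U), wg T' D t * gp k u t ≤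
        ∑ t ∈ P, wg T' D t * gp k u t := by
      apply Finset.sum_le_sum_of_subset_of_nonneg
      · intro t ht
        rw [Finset.mem_filter] at ht
        rw [hP]
        exact ⟨((hS t).1 ht.1).1, ht.2⟩
      · intro t ht _
        rw [hP] at ht
        exact mul_nonneg (wg_nonneg (by linarith [ht.1.1])) (gp_nonneg _ _ _)
    have hout : ∑ t ∈ S with ¬ (T < t ∧ t ≤ T + U), wg T' D t * gp k u t ≤ 1 := by
      apply far_sum hk hu _ T T' U D C h1000 (by linarith) hU0 hD
      · intro t ht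
        rw [Finset.mem_filter] at ht
        exact ⟨((hS t).1 ht.1).1, hS4 t ht.1⟩
      · intro t ht
        rw [Finset.mem_filter] at ht
        by_cases h3 : T < t
        · have h4 : T + U < t := by
            by_contra hcon
            push Not at hcon
            exact ht.2 ⟨h3, hcon⟩
          have := le_abs_self (t - T')
          linarith
        · push Not at h3
          have := neg_le_abs (t - T')
          linarith
    have hmain2 : c₁ * (D * Real.log D ^ κ) ≤ ∑ t ∈ S, wg T' D t * gp k u t := hmain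
    rw [← hsplit] at hmain2
    linarith
  -- integrate over the centre
  have hab : T + U / 4 ≤ T + 3 * U / 4 := by linarith
  have hcont : ∀ t : ℝ, Continuous fun T' : ℝ => wg T' D t * gp k u t := by
    intro t
    unfold wg gg
    fun_prop
  have hI1 : (U / 2) * (c₁ / 2 * (D * Real.log D ^ κ)) ≤
      ∫ T' in (T + U / 4)..(T + 3 * U / 4), ∑ t ∈ P, wg T' D t * gp k u t := by
    have e1 := intervalIntegral.integral_mono_on (μ := volume) hab
      (f := fun _ => c₁ / 2 * (D * Real.log D ^ κ))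
      (g := fun T' => ∑ t ∈ P, wg T' D t * gp k u t)
      intervalIntegrable_const
      ((continuous_finsetSum _ fun t _ => hcont t).intervalIntegrable _ _) hcen
    rw [intervalIntegral.integral_const, smul_eq_mul] at e1
    refine le_trans (le_of_eq ?_) e1
    ring
  have hI2 : (∫ T' in (T + U / 4)..(T + 3 * U / 4), ∑ t ∈ P, wg T' D t * gp k u t) ≤
      √Real.pi * D * (4 * Real.pi / L) * ∑ t ∈ P, gp k u t := by
    rw [intervalIntegral.integral_finsetSum fun t _ => (hcont t).intervalIntegrable _ _,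
      Finset.mul_sum]
    apply Finset.sum_le_sum
    intro t ht
    rw [hP] at ht
    have ht100 : 50 ≤ t := by linarith [ht.1.1]
    obtain ⟨-, hlam, hlam1⟩ := a_line.1 t ht100
    have ht0 : 0 < t := by linarith
    have hlamL : L / 2 ≤ lam t := lam_lower hTp hL6 ht.1.1 ht.2.1.le
    have e1 : ∀ T' : ℝ, wg T' D t * gp k u t = (2 * Real.pi / lam t * gp k u t) * gg T' D t := by
      intro T'
      unfold wg
      ring
    simp_rw [e1]
    rw [intervalIntegral.integral_const_mul]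
    have e2 := gg_int hD0 t _ _ hab
    have e3 : 2 * Real.pi / lam t ≤ 4 * Real.pi / L := by
      rw [div_le_div_iff₀ (by linarith) hL0]
      have := mul_le_mul_of_nonneg_left hlamL hpi.le
      linarith
    have e4 : 0 ≤ 2 * Real.pi / lam t * gp k u t :=
      mul_nonneg (by positivity) (gp_nonneg _ _ _)
    calc 2 * Real.pi / lam t * gp k u t * (∫ T' in (T + U / 4)..(T + 3 * U / 4), gg T' D t)
        ≤ 2 * Real.pi / lam t * gp k u t * (√Real.pi * D) := mul_le_mul_of_nonneg_left e2 e4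
      _ ≤ 4 * Real.pi / L * gp k u t * (√Real.pi * D) := by
          apply mul_le_mul_of_nonneg_right _ (by positivity)
          exact mul_le_mul_of_nonneg_right e3 (gp_nonneg _ _ _)
      _ = √Real.pi * D * (4 * Real.pi / L) * gp k u t := by ring
  have hfinal := hI1.trans hI2
  rw [← finsum_rays hk hu h1000 P hP]
  set G := ∑ t ∈ P, gp k u t with hG
  have hlogk : Real.log U ^ κ ≤ 2 ^ κ * Real.log D ^ κ := by
    rw [← Real.mul_rpow (by norm_num) (by linarith)]
    exact Real.rpow_le_rpow hlogU0 hlogU hκ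
  have h5 : c₁ * U * Real.log D ^ κ * L ≤ 16 * Real.pi * √Real.pi * G := by
    have e1 : U / 2 * (c₁ / 2 * (D * Real.log D ^ κ)) = D / (4 * L) * (c₁ * U * Real.log D ^ κ * L) := by
      field_simp
      ring
    have e2 : √Real.pi * D * (4 * Real.pi / L) * G = D / (4 * L) * (16 * Real.pi * √Real.pi * G) := by
      field_simp
      ring
    rw [e1, e2] at hfinal
    exact le_of_mul_le_mul_left hfinal (by positivity)
  rw [div_mul_eq_mul_div, div_le_iff₀ (by positivity)]
  calc c₁ * (U * L * Real.log U ^ κ) ≤ c₁ * (U * L * (2 ^ κ * Real.log D ^ κ)) := by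
        apply mul_le_mul_of_nonneg_left _ hc1.le
        exact mul_le_mul_of_nonneg_left hlogk (by positivity)
    _ = 2 ^ κ * (c₁ * U * Real.log D ^ κ * L) := by ring
    _ ≤ 2 ^ κ * (16 * Real.pi * √Real.pi * G) := mul_le_mul_of_nonneg_left h5 h2k.le
    _ = G * (16 * Real.pi * √Real.pi * 2 ^ κ) := by ring

end Pool.Agent.TH336.ER
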