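import Pool.Agent.TH336.ER.Core
import Pool.Agent.TH370.ERCoef
import Pool.Agent.W338.QS.Line

/-!
Moments of zeta on every ray: one Gaussian centre.
-/

set_option autoImplicit false

open Complex MeasureTheory Set Filter Topology

namespace Pool.Agent.TH336.ER

open Pool.Agent.W188.QS

/-- the real-variable end of the argument -/
theorem endgame (a b : ℕ) (hb : 1 ≤ b) (hab : 2 * b ≤ a) (c C X L A1 A2 A3 G P : ℝ) (hc : 0 < c)
    (hC : 0 < C) (hX : 1 ≤ X) (hL1 : 1 ≤ L) (hL2 : 8 * C / c ≤ L ^ (1 / 4 : ℝ))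
    (hL3 : 8 / c ≤ X) (κ : ℝ) (hκ : 0 ≤ κ)
    (h1 : X * (c * L ^ κ) - 1 ≤ A1) (h2 : |A2| ≤ X * (2 * (C * L ^ (κ - 1 / 4))) + 1)
    (h3 : A3 ≤ X * (C * L ^ κ) + 1) (h30 : 0 ≤ A3) (hP : P = (A1 + A2) / 2) (hG : 0 ≤ G)
    (hH : P ^ ((a : ℝ) / b) ≤ G * A3 ^ ((a : ℝ) / b - 1)) :
    (c / 4) ^ ((a : ℝ) / b) / (C + c) ^ ((a : ℝ) / b - 1) * (X * L ^ κ) ≤ G := by
  have hb0 : (0 : ℝ) < b := by exact_mod_cast hb
  have hab' : 2 * (b : ℝ) ≤ a := by exact_mod_cast hab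
  set k : ℝ := (a : ℝ) / b with hk
  have hk2 : 2 ≤ k := by
    rw [hk, le_div_iff₀ hb0]
    exact hab'
  have hL0 : 0 < L := by linarith
  set V : ℝ := X * L ^ κ with hV
  have hLκ : 1 ≤ L ^ κ := Real.one_le_rpow hL1 hκ
  have hVX : X ≤ V := by
    rw [hV]
    nlinarith
  have hV0 : 0 < V := by linarith
  have hcV : 8 ≤ c * V := by
    have : 8 / c ≤ V := hL3.trans hVX
    rw [div_le_iff₀ hc] at this
    linarith
  have e1 : X * (2 * (C * L ^ (κ - 1 / 4))) ≤ c * V / 4 := by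
    rw [Real.rpow_sub hL0]
    have hq : 0 < L ^ (1 / 4 : ℝ) := Real.rpow_pos_of_pos hL0 _
    have e2 : X * (2 * (C * (L ^ κ / L ^ (1 / 4 : ℝ)))) = 2 * C * V / L ^ (1 / 4 : ℝ) := by
      rw [hV]
      ring
    rw [e2, div_le_iff₀ hq]
    rw [div_le_iff₀ hc] at hL2
    nlinarith
  have hPlow : c / 4 * V ≤ P := by
    rw [hP]
    have e3 := abs_le.1 h2
    have e4 : X * (c * L ^ κ) = c * V := by rw [hV]; ring
    rw [e4] at h1
    linarith [e3.1]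
  have hA3 : A3 ≤ (C + c) * V := by
    have e4 : X * (C * L ^ κ) = C * V := by rw [hV]; ring
    rw [e4] at h3
    linarith
  have h5 : (c / 4 * V) ^ k ≤ G * ((C + c) * V) ^ (k - 1) := by
    calc (c / 4 * V) ^ k ≤ P ^ k := Real.rpow_le_rpow (by positivity) hPlow (by linarith)
      _ ≤ G * A3 ^ (k - 1) := hH
      _ ≤ G * ((C + c) * V) ^ (k - 1) := by
          refine mul_le_mul_of_nonneg_left ?_ hG
          exact Real.rpow_le_rpow h30 hA3 (by linarith)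
  have hCc : 0 < (C + c) ^ (k - 1) := Real.rpow_pos_of_pos (by linarith) _
  have hVk : 0 < V ^ (k - 1) := Real.rpow_pos_of_pos hV0 _
  rw [Real.mul_rpow (by positivity) hV0.le, Real.mul_rpow (by positivity) hV0.le] at h5
  have h6 : V ^ k = V * V ^ (k - 1) := by
    rw [← Real.rpow_one_add' hV0.le (by linarith)]
    congr 1
    ring
  rw [h6] at h5
  rw [div_mul_eq_mul_div, div_le_iff₀ hCc]
  have h7 : ((c / 4) ^ k * V) * V ^ (k - 1) ≤ (G * (C + c) ^ (k - 1)) * V ^ (k - 1) := by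
    calc ((c / 4) ^ k * V) * V ^ (k - 1) = (c / 4) ^ k * (V * V ^ (k - 1)) := by ring
      _ ≤ G * ((C + c) ^ (k - 1) * V ^ (k - 1)) := h5
      _ = (G * (C + c) ^ (k - 1)) * V ^ (k - 1) := by ring
  exact le_of_mul_le_mul_right h7 hVk

theorem assemble (a b N : ℕ) (hb : 1 ≤ b) (hab : 2 * b ≤ a) (u : ℂ) (T Δ c C X L κ : ℝ)
    (hc : 0 < c) (hC : 0 < C) (hX1 : 1 ≤ X) (hL1 : 1 ≤ L) (hL4 : 8 * C / c ≤ L ^ (1 / 4 : ℝ))
    (hX8 : 8 / c ≤ X) (hκ0 : 0 ≤ κ) (S : Finset ℝ) (hSt : ∀ t ∈ S, 0 ≤ wg T Δ t)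
    (M0 M1 M3 : ℝ) (d1 : M0 ≤ C * L ^ κ) (d2 : c * L ^ κ ≤ M1) (d3 : M3 ≤ C * L ^ (κ - 1 / 4))
    (c1 : X * M1 - 1 ≤ ∑ t ∈ S, wg T Δ t * (|(riemannZeta (cp t) * (starRingEnd ℂ) u).re| *
          (‖PS (cf b N 1) N (cp t)‖ ^ 2) ^ (a - b)))
    (c2 : |∑ t ∈ S, wg T Δ t * ((riemannZeta (cp t) * (starRingEnd ℂ) u).re *
          (‖PS (cf b N 1) N (cp t)‖ ^ 2) ^ (a - b))| ≤ X * (2 * M3) + 1)
    (c3 : ∑ t ∈ S, wg T Δ t * (‖PS (cf b N 1) N (cp t)‖ ^ 2) ^ a ≤ X * M0 + 1) :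
    (c / 4) ^ ((a : ℝ) / b) / (C + c) ^ ((a : ℝ) / b - 1) * (X * L ^ κ) ≤
      ∑ t ∈ S, wg T Δ t * (max (riemannZeta (cp t) * (starRingEnd ℂ) u).re 0) ^ ((a : ℝ) / b) := by
  have hX0 : 0 < X := by linarith
  have hw : ∀ t ∈ S, 0 ≤ max (riemannZeta (cp t) * (starRingEnd ℂ) u).re 0 :=
    fun t _ => le_max_right _ _
  have hy : ∀ t ∈ S, 0 ≤ ‖PS (cf b N 1) N (cp t)‖ ^ 2 := fun t _ => by positivity
  have hA3n : 0 ≤ ∑ t ∈ S, wg T Δ t * (‖PS (cf b N 1) N (cp t)‖ ^ 2) ^ a :=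
    Finset.sum_nonneg fun t ht => mul_nonneg (hSt t ht) (pow_nonneg (hy t ht) _)
  have hGn : 0 ≤ ∑ t ∈ S, wg T Δ t *
      (max (riemannZeta (cp t) * (starRingEnd ℂ) u).re 0) ^ ((a : ℝ) / b) :=
    Finset.sum_nonneg fun t ht => mul_nonneg (hSt t ht) (Real.rpow_nonneg (hw t ht) _)
  have hPeq : ∑ t ∈ S, wg T Δ t * (max (riemannZeta (cp t) * (starRingEnd ℂ) u).re 0 *
      (‖PS (cf b N 1) N (cp t)‖ ^ 2) ^ (a - b)) =
      ((∑ t ∈ S, wg T Δ t * (|(riemannZeta (cp t) * (starRingEnd ℂ) u).re| *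
          (‖PS (cf b N 1) N (cp t)‖ ^ 2) ^ (a - b))) +
      ∑ t ∈ S, wg T Δ t * ((riemannZeta (cp t) * (starRingEnd ℂ) u).re *
          (‖PS (cf b N 1) N (cp t)‖ ^ 2) ^ (a - b))) / 2 := by
    rw [← Finset.sum_add_distrib, Finset.sum_div]
    refine Finset.sum_congr rfl fun t _ => ?_
    generalize (riemannZeta (cp t) * (starRingEnd ℂ) u).re = r
    have : max r 0 = (|r| + r) / 2 := by
      rcases le_total r 0 with h | h
      · rw [max_eq_right h, abs_of_nonpos h]; ring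
      · rw [max_eq_left h, abs_of_nonneg h]; ring
    rw [this]
    ring
  have hH := holder_w S (fun t => wg T Δ t)
    (fun t => max (riemannZeta (cp t) * (starRingEnd ℂ) u).re 0)
    (fun t => ‖PS (cf b N 1) N (cp t)‖ ^ 2) hSt hw hy a b hb (by omega)
  rw [hPeq] at hH
  refine endgame a b hb hab c C X L _ _ _ _ _ hc hC hX1 hL1 hL4 hX8 κ hκ0 ?_ ?_ ?_ hA3n rfl hGn hH
  · refine le_trans ?_ c1
    have : X * (c * L ^ κ) ≤ X * M1 := mul_le_mul_of_nonneg_left d2 hX0.le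
    linarith
  · refine c2.trans ?_
    have : X * (2 * M3) ≤ X * (2 * (C * L ^ (κ - 1 / 4))) :=
      mul_le_mul_of_nonneg_left (by linarith) hX0.le
    linarith
  · refine c3.trans ?_
    have : X * M0 ≤ X * (C * L ^ κ) := mul_le_mul_of_nonneg_left d1 hX0.le
    linarith

theorem centre (a b : ℕ) (hb : 1 ≤ b) (hab : 2 * b ≤ a) (hm : StMono) :
    StCentre ((a : ℝ) / b) (((a : ℝ) / b) ^ 2 / 4) := by
  have h2 : StLine := Pool.Agent.W338.QS.qs_line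
  obtain ⟨c, C, hc, hC, N₀, hco⟩ := Pool.Agent.TH370.ER.coef a b hb hab
  obtain ⟨B, T₀, hB, hT₀, hm⟩ := hm
  have hb0 : (0 : ℝ) < b := by exact_mod_cast hb
  have hab' : 2 * (b : ℝ) ≤ a := by exact_mod_cast hab
  have ha1 : 1 ≤ a := by omega
  set k : ℝ := (a : ℝ) / b with hk
  have hk2 : 2 ≤ k := by
    rw [hk, le_div_iff₀ hb0]
    exact hab'
  set κ : ℝ := k ^ 2 / 4 with hκ
  have hκ0 : 0 ≤ κ := by rw [hκ]; positivity
  set m : ℕ := a * (8 * a + 16) with hmdef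
  have hm1 : 1 ≤ m := by
    rw [hmdef]
    exact Nat.one_le_iff_ne_zero.2 (by positivity)
  have hm0 : (0 : ℝ) < m := by exact_mod_cast hm1
  set L₀ : ℝ := max 1 ((8 * C / c) ^ (4 : ℝ)) with hL₀
  have hL₀1 : 1 ≤ L₀ := le_max_left _ _
  set D₀ : ℝ := (N₀ : ℝ) + 4 + Real.exp (2 * L₀) + 8 / c with hD₀
  have hD₀4 : 4 ≤ D₀ := by
    have e1 : (0 : ℝ) ≤ N₀ := by positivity
    have e2 := Real.exp_pos (2 * L₀)
    have e3 : 0 < 8 / c := by positivity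
    rw [hD₀]
    linarith
  refine ⟨(c / 4) ^ k / (C + c) ^ (k - 1) * (1 / (2 * m)) ^ κ, B, max T₀ (Real.exp (D₀ ^ m)),
    by positivity, hB, ?_⟩
  intro u T Δ hu hT hΔ hBΔ
  have hT1 : T₀ ≤ T := (le_max_left _ _).trans hT
  have hT2 : Real.exp (D₀ ^ m) ≤ T := (le_max_right _ _).trans hT
  have hT0 : 0 < T := by linarith
  have hD₀m : 1 ≤ D₀ ^ m := one_le_pow₀ (by linarith)
  have hlog : D₀ ^ m ≤ Real.log T := by
    rw [Real.le_log_iff_exp_le hT0]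
    exact hT2
  have hlog1 : 1 ≤ Real.log T := hD₀m.trans hlog
  have hΔ1 : D₀ ^ m ≤ Δ := (hlog.trans (le_self_pow₀ hlog1 (by norm_num))).trans hΔ
  have hΔ0 : 0 < Δ := by linarith
  have hlogΔ : Real.log T ≤ √Δ := by
    exact (le_abs_self _).trans (Real.abs_le_sqrt hΔ)
  have hcu : ‖(starRingEnd ℂ) u ^ 2‖ = 1 := by
    rw [norm_pow, RCLike.norm_conj, hu, one_pow]
  obtain ⟨α, β, S, hα, hβ, hS, hmm⟩ := hm ((starRingEnd ℂ) u ^ 2) T hcu hT1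
  refine ⟨α, β, S, hα, hβ, hS, ?_⟩
  -- the length
  set D : ℝ := Δ ^ (1 / (m : ℝ)) with hD
  have hD0 : 0 < D := Real.rpow_pos_of_pos hΔ0 _
  have hDm : D ^ m = Δ := by
    rw [hD, ← Real.rpow_natCast, ← Real.rpow_mul hΔ0.le, one_div, inv_mul_cancel₀ hm0.ne',
      Real.rpow_one]
  have hDD : D₀ ≤ D := by
    by_contra hcon
    push Not at hcon
    have := pow_lt_pow_left₀ hcon hD0.le (by omega : m ≠ 0)
    linarith
  have hD1 : 1 ≤ D := by linarith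
  set N : ℕ := ⌊D⌋₊ with hN
  have hND : (N : ℝ) ≤ D := Nat.floor_le hD0.le
  have hDN : D < N + 1 := Nat.lt_floor_add_one D
  have hN2 : D / 2 ≤ N := by linarith
  have hNN₀ : N₀ ≤ N := by
    rw [hN]
    apply Nat.le_floor
    have e2 := Real.exp_pos (2 * L₀)
    have e3 : 0 < 8 / c := by positivity
    rw [hD₀] at hDD
    linarith
  have hN1 : 1 ≤ N := by
    have : (1 : ℝ) ≤ N := by linarith
    exact_mod_cast this
  set Z : ℕ := N ^ a with hZ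
  have hZD : (Z : ℝ) ≤ D ^ a := by
    rw [hZ]
    push_cast
    exact pow_le_pow_left₀ (by positivity) hND a
  have hsl : 1 ≤ √(Real.log T) := by
    rw [Real.one_le_sqrt]
    exact hlog1
  have hΔT : Δ ≤ T := by
    refine le_trans ?_ hBΔ
    calc Δ = 1 * Δ * 1 := by ring
      _ ≤ B * Δ * √(Real.log T) := by gcongr
  have hZpow : ∀ j : ℕ, j ≤ 8 * a + 16 → (Z : ℝ) ^ j ≤ Δ := by
    intro j hj
    calc (Z : ℝ) ^ j ≤ (D ^ a) ^ j := pow_le_pow_left₀ (by positivity) hZD j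
      _ = D ^ (a * j) := by rw [← pow_mul]
      _ ≤ D ^ m := pow_le_pow_right₀ hD1 (by rw [hmdef]; exact Nat.mul_le_mul_left a hj)
      _ = Δ := hDm
  have hZ8 : (Z : ℝ) ^ 8 ≤ T := (hZpow 8 (by omega)).trans hΔT
  have hZΔ : (Z : ℝ) * Real.log T ≤ Δ := by
    have e1 : (Z : ℝ) ≤ √Δ := (le_abs_self _).trans (Real.abs_le_sqrt (hZpow 2 (by omega)))
    calc (Z : ℝ) * Real.log T ≤ √Δ * √Δ := by gcongr
      _ = Δ := Real.mul_self_sqrt hΔ0.le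
  have hSt : ∀ t ∈ S, 100 ≤ t ∧ ww ((starRingEnd ℂ) u ^ 2) 1 (cp t) = 1 ∧ 0 ≤ wg T Δ t := by
    intro t ht
    obtain ⟨⟨t1, t2⟩, _, _⟩ := (hS t).1 ht
    refine ⟨le_of_lt t1, t2, ?_⟩
    have hl := (h2.1 t (by linarith)).2.2
    unfold wg gg
    positivity
  have hE : ((N ^ a : ℕ) : ℝ) ^ 2 * (((N ^ a : ℕ) : ℝ) ^ a) ^ 2 * T ^ (-(1 / 2 : ℝ)) ≤ 1 := by
    rw [← hZ, Real.rpow_neg hT0.le, ← Real.sqrt_eq_rpow, ← pow_mul, ← pow_add]
    have hs0 : 0 < √T := Real.sqrt_pos.2 hT0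
    rw [← div_eq_mul_inv, div_le_one hs0]
    refine (le_abs_self _).trans (Real.abs_le_sqrt ?_)
    rw [← pow_mul]
    exact (hZpow _ (by omega)).trans hΔT
  obtain ⟨c1, c2, c3⟩ := core h2 a b N hb hab hN1 hu T Δ (T ^ (-(1 / 2 : ℝ))) hΔ0.le S hSt
    (fun n l e1 e2 e3 e4 => (hmm Δ n l Z e1 e2 e3 e4 hZ8 hZΔ hBΔ).1)
    (fun n l e1 e2 e3 e4 => (hmm Δ n l Z e1 e2 e3 e4 hZ8 hZΔ hBΔ).2) hE
  obtain ⟨d1, d2, d3⟩ := hco N hNN₀
  -- logarithms
  have hN0 : (0 : ℝ) < N := by exact_mod_cast hN1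
  have hLN : Real.log D / 2 ≤ Real.log N := by
    have e1 : Real.log (D / 2) ≤ Real.log N := Real.log_le_log (by positivity) hN2
    rw [Real.log_div hD0.ne' (by norm_num)] at e1
    have e2 : 2 * Real.log 2 ≤ Real.log D := by
      have : Real.log ((2 : ℝ) ^ 2) ≤ Real.log D := Real.log_le_log (by norm_num) (by linarith)
      rw [Real.log_pow] at this
      push_cast at this
      exact this
    linarith
  have hDL : 2 * L₀ ≤ Real.log D := by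
    rw [Real.le_log_iff_exp_le hD0]
    have e1 : (0 : ℝ) ≤ N₀ := by positivity
    have e3 : 0 < 8 / c := by positivity
    rw [hD₀] at hDD
    linarith
  set L : ℝ := Real.log N with hL
  have hLL₀ : L₀ ≤ L := by linarith
  have hL1 : 1 ≤ L := hL₀1.trans hLL₀
  have hL4 : 8 * C / c ≤ L ^ (1 / 4 : ℝ) := by
    have e1 : (8 * C / c) ^ (4 : ℝ) ≤ L := (le_max_right _ _).trans hLL₀
    have e2 : ((8 * C / c) ^ (4 : ℝ)) ^ (1 / 4 : ℝ) ≤ L ^ (1 / 4 : ℝ) :=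
      Real.rpow_le_rpow (by positivity) e1 (by norm_num)
    rwa [← Real.rpow_mul (by positivity), show (4 : ℝ) * (1 / 4) = 1 by norm_num,
      Real.rpow_one] at e2
  have hlogD : Real.log Δ = m * Real.log D := by
    rw [← hDm, Real.log_pow]
  have hLΔ : 1 / (2 * m) * Real.log Δ ≤ L := by
    rw [hlogD]
    have : 1 / (2 * (m : ℝ)) * (m * Real.log D) = Real.log D / 2 := by
      field_simp
    linarith
  have hlΔ0 : 0 ≤ Real.log Δ := Real.log_nonneg (by linarith)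
  have hspi : 1 ≤ √Real.pi := by
    rw [Real.one_le_sqrt]
    linarith [Real.pi_gt_three]
  set X : ℝ := √Real.pi * Δ with hX
  have hXΔ : Δ ≤ X := by
    rw [hX]
    exact le_mul_of_one_le_left hΔ0.le hspi
  have hX0 : 0 < X := by linarith
  have hΔD : D₀ ≤ Δ := by
    calc D₀ ≤ D₀ ^ m := le_self_pow₀ (by linarith) (by omega)
      _ ≤ Δ := hΔ1
  have hX8 : 8 / c ≤ X := by
    have e1 : (0 : ℝ) ≤ N₀ := by positivity
    have e2 := Real.exp_pos (2 * L₀)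
    rw [hD₀] at hΔD
    linarith
  have hcase : (k ^ 2 - 1) / 4 = κ - 1 / 4 := by rw [hκ]; ring
  rw [hcase] at d3
  have hend := assemble a b N hb hab u T Δ c C X L κ hc hC (by linarith) hL1 hL4 hX8 hκ0 S
    (fun t ht => (hSt t ht).2.2) _ _ _ d1 d2 d3 c1 c2 c3
  refine le_trans ?_ hend
  have hcc : 0 < (c / 4) ^ k / (C + c) ^ (k - 1) := by positivity
  rw [mul_assoc]
  refine mul_le_mul_of_nonneg_left ?_ hcc.le
  have h8 : (1 / (2 * (m : ℝ))) ^ κ * Real.log Δ ^ κ ≤ L ^ κ := by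
    rw [← Real.mul_rpow (by positivity) hlΔ0]
    exact Real.rpow_le_rpow (by positivity) hLΔ hκ0
  calc (1 / (2 * (m : ℝ))) ^ κ * (Δ * Real.log Δ ^ κ) =
      Δ * ((1 / (2 * (m : ℝ))) ^ κ * Real.log Δ ^ κ) := by ring
    _ ≤ X * L ^ κ := by
        refine mul_le_mul hXΔ h8 (by positivity) hX0.le

end Pool.Agent.TH336.ER
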