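import Pool.Agent.TH336.ER.Poly
import Pool.Agent.TH511.ER.Pow

/-!
Moments of zeta on every ray: the three mean values.
-/

set_option autoImplicit false

open Complex MeasureTheory Set Filter Topology

namespace Pool.Agent.TH336.ER

open Pool.Agent.W188.QS

theorem norm_mul_PS (b N a : ℕ) (hN : 1 ≤ N) (i j : ℕ) (hi : i ≤ a) (hj : j ≤ a) (s : ℂ) :
    ‖PS (cf b N i) (N ^ a) s * (starRingEnd ℂ) (PS (cf b N j) (N ^ a) s)‖ =
      ‖PS (cf b N 1) N s‖ ^ (i + j) := by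
  rw [← Pool.Agent.TH511.ER.cf_pow b N a i hN hi, ← Pool.Agent.TH511.ER.cf_pow b N a j hN hj,
    norm_mul, RCLike.norm_conj, norm_pow, norm_pow, pow_add]

theorem mul_conj_PS (b N a : ℕ) (hN : 1 ≤ N) (j : ℕ) (hj : j ≤ a) (s : ℂ) :
    PS (cf b N j) (N ^ a) s * (starRingEnd ℂ) (PS (cf b N j) (N ^ a) s) =
      (((‖PS (cf b N 1) N s‖ ^ 2) ^ j : ℝ) : ℂ) := by
  rw [← Pool.Agent.TH511.ER.cf_pow b N a j hN hj, map_pow, ← mul_pow, Complex.mul_conj']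
  push_cast
  rfl

theorem core (h2 : StLine) (a b N : ℕ) (hb : 1 ≤ b) (hab : 2 * b ≤ a) (hN : 1 ≤ N) {u : ℂ}
    (hu : ‖u‖ = 1) (T Δ E : ℝ) (hΔ : 0 ≤ Δ) (S : Finset ℝ)
    (hS : ∀ t ∈ S, 100 ≤ t ∧ ww ((starRingEnd ℂ) u ^ 2) 1 (cp t) = 1 ∧ 0 ≤ wg T Δ t)
    (h0 : ∀ n l : ℕ, 1 ≤ n → n ≤ N ^ a → 1 ≤ l → l ≤ N ^ a →
      ‖(∑ t ∈ S, ((wg T Δ t : ℝ) : ℂ) *
          ((n : ℂ) ^ (-cp t) * (starRingEnd ℂ) ((l : ℂ) ^ (-cp t)))) -
        ((√Real.pi * Δ : ℝ) : ℂ) * (if n = l then 1 / (l : ℂ) else 0)‖ ≤ E)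
    (h1 : ∀ n l : ℕ, 1 ≤ n → n ≤ N ^ a → 1 ≤ l → l ≤ N ^ a →
      ‖(∑ t ∈ S, ((wg T Δ t : ℝ) : ℂ) * (riemannZeta (cp t) *
          ((n : ℂ) ^ (-cp t) * (starRingEnd ℂ) ((l : ℂ) ^ (-cp t))))) -
        ((√Real.pi * Δ : ℝ) : ℂ) * ((if n ∣ l then 1 / (l : ℂ) else 0) +
          (starRingEnd ℂ) ((starRingEnd ℂ) u ^ 2) * (if l ∣ n then 1 / (n : ℂ) else 0))‖ ≤ E)
    (hE : ((N ^ a : ℕ) : ℝ) ^ 2 * (((N ^ a : ℕ) : ℝ) ^ a) ^ 2 * E ≤ 1) :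
    (√Real.pi * Δ * (∑ l ∈ Finset.Icc 1 (N ^ a), cf b N a l / (l : ℝ) *
          ∑ n ∈ l.divisors, cf b N (a - 2 * b) n -
        ∑ n ∈ Finset.Icc 1 (N ^ a), cf b N (a - 2 * b) n / (n : ℝ) * ∑ l ∈ n.divisors, cf b N a l) -
        1 ≤ ∑ t ∈ S, wg T Δ t * (|(riemannZeta (cp t) * (starRingEnd ℂ) u).re| *
          (‖PS (cf b N 1) N (cp t)‖ ^ 2) ^ (a - b))) ∧
    (|∑ t ∈ S, wg T Δ t * ((riemannZeta (cp t) * (starRingEnd ℂ) u).re *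
          (‖PS (cf b N 1) N (cp t)‖ ^ 2) ^ (a - b))| ≤
      √Real.pi * Δ * (2 * ∑ l ∈ Finset.Icc 1 (N ^ a), cf b N (a - b) l / (l : ℝ) *
        ∑ n ∈ l.divisors, cf b N (a - b) n) + 1) ∧
    (∑ t ∈ S, wg T Δ t * (‖PS (cf b N 1) N (cp t)‖ ^ 2) ^ a ≤
      √Real.pi * Δ * (∑ n ∈ Finset.Icc 1 (N ^ a), cf b N a n ^ 2 / (n : ℝ)) + 1) := by
  have hcf : ∀ j : ℕ, j ≤ a → ∀ n : ℕ, 1 ≤ n → n ≤ N ^ a → |cf b N j n| ≤ ((N ^ a : ℕ) : ℝ) ^ a := by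
    intro j hj n hn hnN
    obtain ⟨e1, e2⟩ := Pool.Agent.TH511.ER.cf_le b N a j n hb hj hn
    rw [abs_of_nonneg e1]
    refine e2.trans ?_
    exact pow_le_pow_left₀ (by positivity) (by exact_mod_cast hnN) a
  have hcf0 : ∀ j : ℕ, j ≤ a → ∀ n : ℕ, 1 ≤ n → 0 ≤ cf b N j n := by
    intro j hj n hn
    exact (Pool.Agent.TH511.ER.cf_le b N a j n hb hj hn).1
  have hM0 : (0 : ℝ) ≤ ((N ^ a : ℕ) : ℝ) ^ a := by positivity
  have hX0 : 0 ≤ √Real.pi * Δ := by positivity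
  have hdiv0 : ∀ i j : ℕ, i ≤ a → j ≤ a → 0 ≤ ∑ l ∈ Finset.Icc 1 (N ^ a), cf b N i l / (l : ℝ) *
      ∑ n ∈ l.divisors, cf b N j n := by
    intro i j hi hj
    refine Finset.sum_nonneg fun l hl => ?_
    rw [Finset.mem_Icc] at hl
    refine mul_nonneg (div_nonneg (hcf0 i hi l hl.1) (by positivity)) ?_
    refine Finset.sum_nonneg fun n hn => hcf0 j hj n ?_
    exact Nat.pos_of_mem_divisors hn
  have h1' : ∀ n l : ℕ, 1 ≤ n → n ≤ N ^ a → 1 ≤ l → l ≤ N ^ a →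
      ‖(∑ t ∈ S, (((wg T Δ t : ℝ) : ℂ) * riemannZeta (cp t)) *
          ((n : ℂ) ^ (-cp t) * (starRingEnd ℂ) ((l : ℂ) ^ (-cp t)))) -
        ((√Real.pi * Δ : ℝ) : ℂ) * ((if n ∣ l then 1 / (l : ℂ) else 0) +
          (starRingEnd ℂ) ((starRingEnd ℂ) u ^ 2) * (if l ∣ n then 1 / (n : ℂ) else 0))‖ ≤ E := by
    intro n l e1 e2 e3 e4
    have := h1 n l e1 e2 e3 e4
    simp only [mul_assoc] at this ⊢
    exact this
  have hcu : ‖(starRingEnd ℂ) ((starRingEnd ℂ) u ^ 2)‖ = 1 := by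
    rw [RCLike.norm_conj, norm_pow, RCLike.norm_conj, hu, one_pow]
  refine ⟨?_, ?_, ?_⟩
  · have hp := poly_gen S (fun t => ((wg T Δ t : ℝ) : ℂ) * riemannZeta (cp t)) (cf b N (a - 2 * b))
      (cf b N a) (N ^ a) _ _ E hM0 (hcf (a - 2 * b) (by omega)) (hcf a le_rfl) h1'
    rw [sum_zeta] at hp
    have hle : ‖∑ t ∈ S, ((wg T Δ t : ℝ) : ℂ) * riemannZeta (cp t) *
        (PS (cf b N (a - 2 * b)) (N ^ a) (cp t) * (starRingEnd ℂ) (PS (cf b N a) (N ^ a) (cp t)))‖ ≤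
        ∑ t ∈ S, wg T Δ t * (|(riemannZeta (cp t) * (starRingEnd ℂ) u).re| *
          (‖PS (cf b N 1) N (cp t)‖ ^ 2) ^ (a - b)) := by
      refine (norm_sum_le _ _).trans (le_of_eq ?_)
      refine Finset.sum_congr rfl fun t ht => ?_
      obtain ⟨t1, t2, t3⟩ := hS t ht
      rw [norm_mul, norm_mul, norm_mul_PS b N a hN _ _ (by omega) le_rfl, norm_real,
        Real.norm_eq_abs, abs_of_nonneg t3]
      have e1 : ‖riemannZeta (cp t)‖ = |(riemannZeta (cp t) * (starRingEnd ℂ) u).re| := by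
        have e2 := line_real h2 hu (by linarith : (1 : ℝ) ≤ t) t2
        have e3 := congrArg (fun z : ℂ => ‖z‖) e2
        simp only [norm_mul, RCLike.norm_conj, hu, mul_one, norm_real, Real.norm_eq_abs] at e3
        exact e3
      rw [e1, ← pow_mul, show a - 2 * b + a = 2 * (a - b) by omega]
      ring
    set M1 := ∑ l ∈ Finset.Icc 1 (N ^ a), cf b N a l / (l : ℝ) *
          ∑ n ∈ l.divisors, cf b N (a - 2 * b) n with hM1
    set M2 := ∑ n ∈ Finset.Icc 1 (N ^ a), cf b N (a - 2 * b) n / (n : ℝ) *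
      ∑ l ∈ n.divisors, cf b N a l with hM2
    have hM1' : 0 ≤ M1 := hdiv0 a (a - 2 * b) le_rfl (by omega)
    have hM2' : 0 ≤ M2 := hdiv0 (a - 2 * b) a (by omega) le_rfl
    have hlow : √Real.pi * Δ * (M1 - M2) ≤ ‖((√Real.pi * Δ : ℝ) : ℂ) *
        ((M1 : ℂ) + (starRingEnd ℂ) ((starRingEnd ℂ) u ^ 2) * (M2 : ℂ))‖ := by
      rw [norm_mul, norm_real, Real.norm_eq_abs, abs_of_nonneg hX0]
      refine mul_le_mul_of_nonneg_left ?_ hX0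
      have e1 := norm_sub_norm_le ((M1 : ℂ)) (-((starRingEnd ℂ) ((starRingEnd ℂ) u ^ 2) * (M2 : ℂ)))
      rw [sub_neg_eq_add, norm_neg, norm_mul, hcu, one_mul, norm_real, norm_real, Real.norm_eq_abs,
        Real.norm_eq_abs, abs_of_nonneg hM1', abs_of_nonneg hM2'] at e1
      exact e1
    have e5 := norm_sub_norm_le (((√Real.pi * Δ : ℝ) : ℂ) *
        ((M1 : ℂ) + (starRingEnd ℂ) ((starRingEnd ℂ) u ^ 2) * (M2 : ℂ)))
      (∑ t ∈ S, ((wg T Δ t : ℝ) : ℂ) * riemannZeta (cp t) *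
        (PS (cf b N (a - 2 * b)) (N ^ a) (cp t) * (starRingEnd ℂ) (PS (cf b N a) (N ^ a) (cp t))))
    rw [norm_sub_rev] at e5
    linarith
  · have hp := poly_gen S (fun t => ((wg T Δ t : ℝ) : ℂ) * riemannZeta (cp t)) (cf b N (a - b))
      (cf b N (a - b)) (N ^ a) _ _ E hM0 (hcf (a - b) (by omega)) (hcf (a - b) (by omega)) h1'
    rw [sum_zeta] at hp
    have heq : ((∑ t ∈ S, wg T Δ t * ((riemannZeta (cp t) * (starRingEnd ℂ) u).re *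
          (‖PS (cf b N 1) N (cp t)‖ ^ 2) ^ (a - b)) : ℝ) : ℂ) =
        (starRingEnd ℂ) u * ∑ t ∈ S, ((wg T Δ t : ℝ) : ℂ) * riemannZeta (cp t) *
        (PS (cf b N (a - b)) (N ^ a) (cp t) * (starRingEnd ℂ) (PS (cf b N (a - b)) (N ^ a) (cp t))) := by
      push_cast
      rw [Finset.mul_sum]
      refine Finset.sum_congr rfl fun t ht => ?_
      obtain ⟨t1, t2, t3⟩ := hS t ht
      rw [← line_real h2 hu (by linarith : (1 : ℝ) ≤ t) t2, mul_conj_PS b N a hN _ (by omega)]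
      push_cast
      ring
    set M3 := ∑ l ∈ Finset.Icc 1 (N ^ a), cf b N (a - b) l / (l : ℝ) *
        ∑ n ∈ l.divisors, cf b N (a - b) n with hM3
    have hM3' : 0 ≤ M3 := hdiv0 (a - b) (a - b) (by omega) (by omega)
    rw [← Real.norm_eq_abs, ← norm_real, heq, norm_mul, RCLike.norm_conj, hu, one_mul]
    have e1 : ‖((√Real.pi * Δ : ℝ) : ℂ) *
        ((M3 : ℂ) + (starRingEnd ℂ) ((starRingEnd ℂ) u ^ 2) * (M3 : ℂ))‖ ≤
        √Real.pi * Δ * (2 * M3) := by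
      rw [norm_mul, norm_real, Real.norm_eq_abs, abs_of_nonneg hX0]
      refine mul_le_mul_of_nonneg_left ?_ hX0
      refine (norm_add_le _ _).trans ?_
      rw [norm_mul, hcu, one_mul, norm_real, Real.norm_eq_abs, abs_of_nonneg hM3']
      linarith
    have e2 := norm_sub_norm_le
      (∑ t ∈ S, ((wg T Δ t : ℝ) : ℂ) * riemannZeta (cp t) *
        (PS (cf b N (a - b)) (N ^ a) (cp t) * (starRingEnd ℂ) (PS (cf b N (a - b)) (N ^ a) (cp t))))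
      (((√Real.pi * Δ : ℝ) : ℂ) *
        ((M3 : ℂ) + (starRingEnd ℂ) ((starRingEnd ℂ) u ^ 2) * (M3 : ℂ)))
    linarith
  · have hp := poly_gen S (fun t => ((wg T Δ t : ℝ) : ℂ)) (cf b N a)
      (cf b N a) (N ^ a) _ _ E hM0 (hcf a le_rfl) (hcf a le_rfl) h0
    rw [sum_diag] at hp
    have heq : ((∑ t ∈ S, wg T Δ t * (‖PS (cf b N 1) N (cp t)‖ ^ 2) ^ a : ℝ) : ℂ) =
        ∑ t ∈ S, ((wg T Δ t : ℝ) : ℂ) *
        (PS (cf b N a) (N ^ a) (cp t) * (starRingEnd ℂ) (PS (cf b N a) (N ^ a) (cp t))) := by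
      push_cast
      refine Finset.sum_congr rfl fun t ht => ?_
      rw [mul_conj_PS b N a hN _ le_rfl]
      push_cast
      ring
    have hpp : ∀ n : ℕ, cf b N a n * cf b N a n / (n : ℝ) = cf b N a n ^ 2 / (n : ℝ) := by
      intro n
      rw [pow_two]
    simp only [hpp] at hp
    rw [← heq, ← ofReal_mul, ← ofReal_sub, norm_real, Real.norm_eq_abs] at hp
    have := le_abs_self (∑ t ∈ S, wg T Δ t * (‖PS (cf b N 1) N (cp t)‖ ^ 2) ^ a -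
      √Real.pi * Δ * ∑ n ∈ Finset.Icc 1 (N ^ a), cf b N a n ^ 2 / (n : ℝ))
    linarith

end Pool.Agent.TH336.ER
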