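import Mathlib
import Pool.Agent.W188.QS.Stm2
import Pool.Agent.H306R2.KW

/-!
Moments of zeta on every ray: definitions.
-/

set_option autoImplicit false

open Complex MeasureTheory Set Filter Topology

namespace Pool.Agent.TH336.ER

open Pool.Agent.W188.QS Pool.Agent.H306R2

/-- weight of a sample point -/
noncomputable def wg (T Δ t : ℝ) : ℝ := 2 * Real.pi / lam t * gg T Δ t

/-- Dirichlet polynomial -/
noncomputable def PS (A : ℕ → ℝ) (N : ℕ) (s : ℂ) : ℂ :=
  ∑ n ∈ Finset.Icc 1 N, (A n : ℂ) * (n : ℂ) ^ (-s)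

/-- the `j`-th power of the truncated `d_{1/(2b)}` -/
noncomputable def cf (b N j : ℕ) : ArithmeticFunction ℝ := tr (dA (1 / (2 * (b : ℝ)))) (N : ℝ) ^ j

/-- `S` is the set of the sample points in `(a, b)` -/
def IsS (c : ℂ) (a b : ℝ) (S : Finset ℝ) : Prop := ∀ t : ℝ, t ∈ S ↔ t ∈ PP c 1 ∧ a < t ∧ t < b

end Pool.Agent.TH336.ER
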