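import Pool.Agent.TH336.ER.Mono3
import Pool.Agent.TH336.ER.Centre
import Pool.Agent.TH81.ER.Gauss
import Pool.Agent.TH75.GaussZeta

/-!
Moments of zeta on every ray: assembly.
-/

set_option autoImplicit false

open Complex MeasureTheory Set Filter Topology

namespace Pool.Agent.TH336.ER

open Pool.Agent.W188.QS

theorem gaussFp : GaussFp := Pool.Agent.TH81.ER.gauss_fp

theorem gaussZeta : GaussZeta := Pool.Agent.TH75.GaussZeta.gauss_zeta gaussFp

theorem stMono : StMono := mono gaussFp gaussZeta

theorem stCentre (a b : ℕ) (hb : 1 ≤ b) (hab : 2 * b ≤ a) :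
    StCentre ((a : ℝ) / b) (((a : ℝ) / b) ^ 2 / 4) := centre a b hb hab stMono

end Pool.Agent.TH336.ER
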