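import Pool.Agent.TH336.ER.Defs
import Pool.Agent.H382R2.Rect
import Pool.Agent.W290.QS.Res
import Pool.Agent.W571.QS.Fold

/-!
Moments of zeta on every ray: residue theorem and folding for a general factor.
-/

set_option autoImplicit false

open Complex MeasureTheory Set Filter Topology

namespace Pool.Agent.TH336.ER

open Pool.Agent.W188.QS Pool.Agent.W290.QS

/-- `H G / (1 - w)` -/
noncomputable def RH (H : ℂ → ℂ) (c : ℂ) (T Δ : ℝ) (s : ℂ) : ℂ := H s * GG T Δ s / (1 - ww c 1 s)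

theorem res_gen (h1 : StBasic) (h2 : StLine) (H : ℂ → ℂ)
    (hH : ∀ s : ℂ, 1 ≤ s.im → DifferentiableAt ℂ H s) (c : ℂ) (T Δ a b : ℝ) (hc : ‖c‖ = 1)
    (ha : 100 ≤ a) (hab : a < b) (hwa : ww c 1 (cp a) = -1) (hwb : ww c 1 (cp b) = -1)
    (S : Finset ℝ) (hS : IsS c a b S) :
    RI (RH H c T Δ) (-3) 4 a b = I * ∑ t ∈ S, ((wg T Δ t : ℝ) : ℂ) * H (cp t) := by
  classical
  obtain ⟨l1, l2, l3, l4, l5, l6, l7, l8, l9, l10⟩ := h2
  have hmemS : ∀ t, t ∈ S ↔ (100 < t ∧ ww c 1 (cp t) = 1) ∧ (a < t ∧ t < b) := hS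
  set Z : Finset ℂ := S.image cp with hZ
  have hUo : IsOpen {s : ℂ | 1 < s.im} := isOpen_lt continuous_const Complex.continuous_im
  have hfd : DifferentiableOn ℂ (fun s => 1 - ww c 1 s) {s : ℂ | 1 < s.im} := by
    intro s hs
    obtain ⟨b1, b2, b3, _⟩ := h1 s (le_of_lt hs)
    apply DifferentiableAt.differentiableWithinAt
    unfold ww
    exact (differentiableAt_const _).sub ((differentiableAt_const _).mul ((b1.inv b2).pow 1))
  have hHd : DifferentiableOn ℂ (fun s => H s * GG T Δ s) {s : ℂ | 1 < s.im} := by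
    intro s hs
    apply DifferentiableAt.differentiableWithinAt
    unfold GG
    apply DifferentiableAt.mul
    · exact hH s (le_of_lt hs)
    · exact (((differentiableAt_id.sub (differentiableAt_const _)).div_const _).pow 2).cexp
  have hR : Set.Icc (-3 : ℝ) 4 ×ℂ Set.Icc a b ⊆ {s : ℂ | 1 < s.im} := by
    intro s hs
    rw [mem_reProdIm] at hs
    show 1 < s.im
    have := hs.2.1
    linarith
  have h0 : ∀ s ∈ Set.Icc (-3 : ℝ) 4 ×ℂ Set.Icc a b, 1 - ww c 1 s = 0 ↔ s ∈ Z := by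
    intro s hs
    rw [mem_reProdIm] at hs
    obtain ⟨⟨hs1, hs2⟩, hs3, hs4⟩ := hs
    obtain ⟨b1, b2, b3, b4, b5, b6, b7, b8⟩ := h1 s (by linarith)
    constructor
    · intro hw
      have hw1 : ww c 1 s = 1 := by linear_combination -hw
      have hn : ‖XX s‖ = 1 := by
        have e1 : ‖ww c 1 s‖ = 1 := by rw [hw1, norm_one]
        unfold ww at e1
        rw [norm_mul, hc, one_mul, norm_pow, norm_inv] at e1
        have e2 : ‖XX s‖⁻¹ = 1 := (pow_eq_one_iff_of_nonneg (by positivity) (by omega)).1 e1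
        rw [inv_eq_one] at e2
        exact e2
      rcases lt_trichotomy s.re (1 / 2) with h | h | h
      · exfalso
        have r1 : (rf s).re = 1 - s.re := by unfold rf; simp
        have r2 : (rf s).im = s.im := by unfold rf; simp
        have := l6 (rf s) (by rw [r1]; linarith) (by rw [r1]; linarith) (by rw [r2]; linarith)
        rw [b4, norm_inv, RCLike.norm_conj, hn] at this
        norm_num at this
      · have hcp : cp s.im = s := by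
          apply Complex.ext
          · rw [cp_re, h]
          · rw [cp_im]
        rw [hZ, Finset.mem_image]
        refine ⟨s.im, ?_, hcp⟩
        rw [hmemS]
        have n1 : s.im ≠ a := by
          intro e
          rw [← e, hcp, hw1] at hwa
          norm_num at hwa
        have n2 : s.im ≠ b := by
          intro e
          rw [← e, hcp, hw1] at hwb
          norm_num at hwb
        have n3 : a < s.im := lt_of_le_of_ne hs3 (Ne.symm n1)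
        have n4 : s.im < b := lt_of_le_of_ne hs4 n2
        refine ⟨⟨by linarith, by rw [hcp]; exact hw1⟩, n3, n4⟩
      · exfalso
        have := l6 s h hs2 (by linarith)
        rw [hn] at this
        exact lt_irrefl _ this
    · intro hz
      rw [hZ, Finset.mem_image] at hz
      obtain ⟨t, ht, rfl⟩ := hz
      rw [((hmemS t).1 ht).1.2, sub_self]
  have hder : ∀ t ∈ S, deriv (fun s => 1 - ww c 1 s) (cp t) = (lam t : ℂ) ∧ 1 ≤ lam t := by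
    intro t ht
    obtain ⟨⟨t1, t2⟩, t3, t4⟩ := (hmemS t).1 ht
    obtain ⟨e1, _, e3⟩ := l1 t (by linarith)
    have hd := l7 c 1 (cp t) (by rw [cp_re]; norm_num) (by rw [cp_im]; linarith)
    rw [t2, e1, mul_one] at hd
    have hd2 : HasDerivAt (fun s => 1 - ww c 1 s) (0 - -(((1 : ℕ) : ℂ) * (lam t : ℂ))) (cp t) :=
      (hasDerivAt_const (cp t) (1 : ℂ)).sub hd
    refine ⟨?_, e3⟩
    rw [hd2.deriv]
    push_cast
    ring
  have hres := SG.rect_res (fun s => 1 - ww c 1 s) (fun s => H s * GG T Δ s) (-3) 4 a b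
    (by norm_num) hab Z
    (by
      intro z hz
      rw [hZ, Finset.mem_image] at hz
      obtain ⟨t, ht, rfl⟩ := hz
      obtain ⟨_, t3, t4⟩ := (hmemS t).1 ht
      rw [mem_reProdIm, cp_re, cp_im]
      exact ⟨⟨by norm_num, by norm_num⟩, t3, t4⟩)
    (fun s hs => hfd.analyticAt (hUo.mem_nhds (hR hs)))
    (fun s hs => hHd.analyticAt (hUo.mem_nhds (hR hs)))
    h0
    (by
      intro z hz
      rw [hZ, Finset.mem_image] at hz
      obtain ⟨t, ht, rfl⟩ := hz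
      obtain ⟨d1, d2⟩ := hder t ht
      rw [d1]
      have : lam t ≠ 0 := by linarith
      exact_mod_cast this)
  have hlhs : RI (RH H c T Δ) (-3) 4 a b =
      SG.rectI (fun s => (H s * GG T Δ s) / (1 - ww c 1 s)) (-3) 4 a b := rfl
  rw [hlhs, hres, hZ, Finset.sum_image (fun x _ y _ h => cp_inj h), Finset.mul_sum,
    Finset.mul_sum]
  refine Finset.sum_congr rfl fun t ht => ?_
  obtain ⟨d1, d2⟩ := hder t ht
  have hl0 : (lam t : ℂ) ≠ 0 := by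
    have : lam t ≠ 0 := by linarith
    exact_mod_cast this
  rw [d1, l5]
  unfold wg
  push_cast
  field_simp

open Pool.Agent.W571.QS

/-- reflection of `H G / (1 - w)`, `K = conj (H ∘ rf) w` -/
theorem RH_rf (h1 : StBasic) (H K : ℂ → ℂ) (c : ℂ) (hc : ‖c‖ = 1) (T Δ : ℝ)
    (hK : ∀ s : ℂ, 1 ≤ s.im → (starRingEnd ℂ) (H (rf s)) * ww c 1 s = K s) {s : ℂ} (hs : 1 ≤ s.im) :
    RH H c T Δ (rf s) = -(starRingEnd ℂ) (RH K c T Δ s) := by
  have hW := ww_ne h1 hc 1 hs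
  have hKs := hK s hs
  obtain ⟨-, hX, -, -, -, hF, hG, hw⟩ := h1 s hs
  unfold RH
  rw [hG, hw c 1 hc, ← hKs]
  simp only [map_div₀, map_mul, map_sub, map_one, RingHomCompTriple.comp_apply, RingHom.id_apply]
  have h2 : (starRingEnd ℂ) (ww c 1 s) ≠ 0 := by
    intro h
    exact hW ((map_eq_zero _).1 h)
  generalize (starRingEnd ℂ) (ww c 1 s) = W at h2 ⊢
  by_cases h : W = 1
  · rw [h]
    simp
  · have h3 : 1 - W ≠ 0 := fun h' => h (sub_eq_zero.1 h').symm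
    have h4 : 1 - W⁻¹ = -((1 - W) / W) := by
      field_simp
      ring
    rw [h4]
    field_simp

theorem norm_RH {H : ℂ → ℂ} {c : ℂ} {T Δ : ℝ} {s : ℂ} (h : (ww c 1 s).re ≤ 0) :
    ‖RH H c T Δ s‖ ≤ ‖H s * GG T Δ s‖ := by
  unfold RH
  rw [norm_div]
  exact div_le_self (norm_nonneg _) (bnd h).1

/-- the horizontal sides -/
theorem hor_gen (h1 : StBasic) (H K : ℂ → ℂ) {c : ℂ} (hc : ‖c‖ = 1) {T Δ a M : ℝ} (ha : 100 ≤ a)
    (hK : ∀ s : ℂ, 1 ≤ s.im → (starRingEnd ℂ) (H (rf s)) * ww c 1 s = K s)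
    (hg : Good c 1 a)
    (hM : ∀ σ : ℝ, 1 / 2 ≤ σ → σ ≤ 4 → ‖H (⟨σ, a⟩ : ℂ) * GG T Δ (⟨σ, a⟩ : ℂ)‖ ≤ M)
    (hM' : ∀ σ : ℝ, 1 / 2 ≤ σ → σ ≤ 4 → ‖K (⟨σ, a⟩ : ℂ) * GG T Δ (⟨σ, a⟩ : ℂ)‖ ≤ M) :
    ‖∫ x in (-3 : ℝ)..4, RH H c T Δ (⟨x, a⟩ : ℂ)‖ ≤ 7 * M := by
  have h2 : ∀ x ∈ Set.uIoc (-3 : ℝ) 4, ‖RH H c T Δ (⟨x, a⟩ : ℂ)‖ ≤ M := by
    intro x hx
    rw [Set.uIoc_of_le (by norm_num)] at hx
    by_cases hx2 : 1 / 2 ≤ x
    · exact (norm_RH (hg.2 x hx2 hx.2)).trans (hM x hx2 hx.2)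
    · push Not at hx2
      have h3 : (⟨x, a⟩ : ℂ) = rf (⟨1 - x, a⟩ : ℂ) := by
        rw [rf_mk, sub_sub_cancel]
      rw [h3, RH_rf h1 H K c hc T Δ hK (s := ⟨1 - x, a⟩) (by change (1 : ℝ) ≤ a; linarith), norm_neg,
        RCLike.norm_conj]
      have h4 : 1 / 2 ≤ 1 - x := by linarith
      have h5 : 1 - x ≤ 4 := by linarith [hx.1]
      exact (norm_RH (hg.2 _ h4 h5)).trans (hM' _ h4 h5)
  have h3 := intervalIntegral.norm_integral_le_of_norm_le_const h2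
  have h4 : |(4 : ℝ) - -3| = 7 := by norm_num
  rw [h4] at h3
  linarith

/-- a vertical side -/
theorem vert_gen (h1 : StBasic) (h2 : StLine) (H : ℂ → ℂ)
    (hH : ∀ s : ℂ, 1 ≤ s.im → DifferentiableAt ℂ H s) {c : ℂ} (hc : ‖c‖ = 1) {T Δ a b M : ℝ}
    (ha : 100 ≤ a) (hab : a < b)
    (hM : ∀ y : ℝ, a ≤ y → y ≤ b → ‖H (⟨4, y⟩ : ℂ) * GG T Δ (⟨4, y⟩ : ℂ)‖ * (2 * ‖ww c 1 (⟨4, y⟩ : ℂ)‖) ≤ M)
    (hw : ∀ y : ℝ, a ≤ y → ‖ww c 1 (⟨4, y⟩ : ℂ)‖ ≤ 1 / 2) :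
    ‖(∫ y in a..b, RH H c T Δ (⟨4, y⟩ : ℂ)) - ∫ y in a..b, H (fp y) * GG T Δ (fp y)‖ ≤
      M * (b - a) := by
  have hcP : ContinuousOn (fun y : ℝ => H (⟨4, y⟩ : ℂ) * GG T Δ (⟨4, y⟩ : ℂ)) (Set.uIcc a b) := by
    intro y hy
    rw [Set.uIcc_of_le hab.le] at hy
    refine ContinuousAt.continuousWithinAt ?_
    have h3 : ContinuousAt (fun s => H s * GG T Δ s) (⟨4, y⟩ : ℂ) :=
      ((hH _ (by change (1 : ℝ) ≤ y; linarith [hy.1])).mul (GG_diff T Δ _)).continuousAt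
    exact ContinuousAt.comp (f := fun y : ℝ => (⟨4, y⟩ : ℂ)) h3 (vert_cont 4).continuousAt
  have hcR : ContinuousOn (fun y : ℝ => RH H c T Δ (⟨4, y⟩ : ℂ)) (Set.uIcc a b) := by
    intro y hy
    rw [Set.uIcc_of_le hab.le] at hy
    refine ContinuousAt.continuousWithinAt ?_
    have hy1 : (1 : ℝ) ≤ y := by linarith [hy.1]
    have h3 : ContinuousAt (RH H c T Δ) (⟨4, y⟩ : ℂ) := by
      have h4 : ContinuousAt (fun s => H s * GG T Δ s) (⟨4, y⟩ : ℂ) :=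
        ((hH _ hy1).mul (GG_diff T Δ _)).continuousAt
      have h5 := (ww_diff h1 c 1 (s := ⟨4, y⟩) hy1).continuousAt
      exact h4.div (continuousAt_const.sub h5)
        (one_sub_ww h2 hc le_rfl (by linarith [hy.1]))
    exact ContinuousAt.comp (f := fun y : ℝ => (⟨4, y⟩ : ℂ)) h3 (vert_cont 4).continuousAt
  have hfp : (fun y : ℝ => H (fp y) * GG T Δ (fp y)) =
      fun y : ℝ => H (⟨4, y⟩ : ℂ) * GG T Δ (⟨4, y⟩ : ℂ) := by
    funext y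
    rw [fp_eq]
  rw [hfp, ← intervalIntegral.integral_sub hcR.intervalIntegrable hcP.intervalIntegrable]
  have h3 : ∀ y ∈ Set.uIoc a b, ‖RH H c T Δ (⟨4, y⟩ : ℂ) -
      H (⟨4, y⟩ : ℂ) * GG T Δ (⟨4, y⟩ : ℂ)‖ ≤ M := by
    intro y hy
    rw [Set.uIoc_of_le hab.le] at hy
    refine le_trans ?_ (hM y hy.1.le hy.2)
    have h4 := one_sub_ww h2 hc le_rfl (y := y) (N := 1) (by linarith [hy.1])
    have h5 : RH H c T Δ (⟨4, y⟩ : ℂ) - H (⟨4, y⟩ : ℂ) * GG T Δ (⟨4, y⟩ : ℂ) =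
        H (⟨4, y⟩ : ℂ) * GG T Δ (⟨4, y⟩ : ℂ) * (ww c 1 (⟨4, y⟩ : ℂ) / (1 - ww c 1 (⟨4, y⟩ : ℂ))) := by
      unfold RH
      field_simp
      ring
    rw [h5, norm_mul]
    refine mul_le_mul_of_nonneg_left ?_ (norm_nonneg _)
    rw [norm_div, div_le_iff₀ (norm_pos_iff.2 h4)]
    have h6 : 1 / 2 ≤ ‖1 - ww c 1 (⟨4, y⟩ : ℂ)‖ := by
      have := norm_sub_norm_le (1 : ℂ) (ww c 1 (⟨4, y⟩ : ℂ))
      rw [norm_one] at this
      linarith [hw y hy.1.le]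
    nlinarith [norm_nonneg (ww c 1 (⟨4, y⟩ : ℂ))]
  have h4 := intervalIntegral.norm_integral_le_of_norm_le_const h3
  rwa [abs_of_pos (by linarith)] at h4

/-- FOLD -/
theorem fold_gen (h1 : StBasic) (h2 : StLine) (H K : ℂ → ℂ)
    (hH : ∀ s : ℂ, 1 ≤ s.im → DifferentiableAt ℂ H s) (hKd : ∀ s : ℂ, 1 ≤ s.im → DifferentiableAt ℂ K s)
    {c : ℂ} (hc : ‖c‖ = 1) {T Δ a b M M' : ℝ}
    (ha : 100 ≤ a) (hab : a < b)
    (hK : ∀ s : ℂ, 1 ≤ s.im → (starRingEnd ℂ) (H (rf s)) * ww c 1 s = K s)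
    (hga : Good c 1 a) (hgb : Good c 1 b) (S : Finset ℝ) (hS : IsS c a b S)
    (hM : ∀ e : ℝ, e = a ∨ e = b → ∀ σ : ℝ, 1 / 2 ≤ σ → σ ≤ 4 →
      ‖H (⟨σ, e⟩ : ℂ) * GG T Δ (⟨σ, e⟩ : ℂ)‖ ≤ M ∧ ‖K (⟨σ, e⟩ : ℂ) * GG T Δ (⟨σ, e⟩ : ℂ)‖ ≤ M)
    (hM' : ∀ y : ℝ, a ≤ y → y ≤ b →
      ‖H (⟨4, y⟩ : ℂ) * GG T Δ (⟨4, y⟩ : ℂ)‖ * (2 * ‖ww c 1 (⟨4, y⟩ : ℂ)‖) ≤ M' ∧
      ‖K (⟨4, y⟩ : ℂ) * GG T Δ (⟨4, y⟩ : ℂ)‖ * (2 * ‖ww c 1 (⟨4, y⟩ : ℂ)‖) ≤ M')
    (hw : ∀ y : ℝ, a ≤ y → ‖ww c 1 (⟨4, y⟩ : ℂ)‖ ≤ 1 / 2) :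
    ‖(∑ t ∈ S, ((wg T Δ t : ℝ) : ℂ) * H (cp t)) -
      ((∫ y in a..b, H (fp y) * GG T Δ (fp y)) +
        (starRingEnd ℂ) (∫ y in a..b, K (fp y) * GG T Δ (fp y)))‖ ≤ 14 * M + 2 * M' * (b - a) := by
  have hres := res_gen h1 h2 H hH c T Δ a b hc ha hab hga.1 hgb.1 S hS
  have hA := hor_gen h1 H K hc ha hK hga (fun σ u v => (hM a (Or.inl rfl) σ u v).1)
    (fun σ u v => (hM a (Or.inl rfl) σ u v).2)
  have hB := hor_gen h1 H K hc (by linarith : (100 : ℝ) ≤ b) hK hgb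
    (fun σ u v => (hM b (Or.inr rfl) σ u v).1) (fun σ u v => (hM b (Or.inr rfl) σ u v).2)
  have hR := vert_gen h1 h2 H hH hc ha hab (fun y u v => (hM' y u v).1) hw
  have hL := vert_gen h1 h2 K hKd hc ha hab (fun y u v => (hM' y u v).2) hw
  have hL2 : (∫ y in a..b, RH H c T Δ (⟨-3, y⟩ : ℂ)) =
      -(starRingEnd ℂ) (∫ y in a..b, RH K c T Δ (⟨4, y⟩ : ℂ)) := by
    rw [← intervalIntegral.intervalIntegral_conj, ← intervalIntegral.integral_neg]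
    refine intervalIntegral.integral_congr (fun y hy => ?_)
    rw [Set.uIcc_of_le hab.le] at hy
    have h3 : (⟨-3, y⟩ : ℂ) = rf (⟨4, y⟩ : ℂ) := by
      rw [rf_mk]
      norm_num
    change RH H c T Δ (⟨-3, y⟩ : ℂ) = -(starRingEnd ℂ) (RH K c T Δ (⟨4, y⟩ : ℂ))
    rw [h3]
    exact RH_rf h1 H K c hc T Δ hK (s := ⟨4, y⟩) (by change (1 : ℝ) ≤ y; linarith [hy.1])
  unfold RI at hres
  rw [hL2] at hres
  generalize (∫ y in a..b, RH K c T Δ (⟨4, y⟩ : ℂ)) = q at *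
  generalize (∫ y in a..b, RH H c T Δ (⟨4, y⟩ : ℂ)) = p at *
  generalize (∫ y in a..b, K (fp y) * GG T Δ (fp y)) = q' at *
  generalize (∫ y in a..b, H (fp y) * GG T Δ (fp y)) = p' at *
  generalize (∫ x in (-3 : ℝ)..4, RH H c T Δ (⟨x, a⟩ : ℂ)) = A at *
  generalize (∫ x in (-3 : ℝ)..4, RH H c T Δ (⟨x, b⟩ : ℂ)) = B at *
  generalize (∑ t ∈ S, ((wg T Δ t : ℝ) : ℂ) * H (cp t)) = Sg at *
  have e1 : Sg - (p' + (starRingEnd ℂ) q') = -I * (A - B) + ((p - p') + (starRingEnd ℂ) (q - q')) := by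
    have e2 : I * Sg = A - B + I * p + I * (starRingEnd ℂ) q := by
      rw [← hres]
      ring
    have e3 : Sg = -I * (I * Sg) := by
      rw [← mul_assoc]
      simp
    rw [e3, e2, map_sub]
    have e4 : -I * (A - B + I * p + I * (starRingEnd ℂ) q) =
        -I * (A - B) + -(I * I) * (p + (starRingEnd ℂ) q) := by ring
    rw [e4, I_mul_I]
    ring
  rw [e1]
  have n1 : ‖-I * (A - B)‖ ≤ 14 * M := by
    rw [norm_mul, norm_neg, Complex.norm_I, one_mul]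
    exact (norm_sub_le _ _).trans (by linarith)
  have n2 : ‖(starRingEnd ℂ) (q - q')‖ ≤ M' * (b - a) := by rw [RCLike.norm_conj]; exact hL
  have n3 := norm_add_le (-I * (A - B)) ((p - p') + (starRingEnd ℂ) (q - q'))
  have n4 := norm_add_le (p - p') ((starRingEnd ℂ) (q - q'))
  linarith

end Pool.Agent.TH336.ER
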