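import Pool.Agent.TH336.ER.Stm
import Pool.Agent.TH336.ER.Res
import Pool.Agent.W723.QS.Edge
import Pool.Agent.H388LH.ZG

/-!
Moments of zeta on every ray: monomials, preparations.
-/

set_option autoImplicit false

open Complex MeasureTheory Set Filter Topology

namespace Pool.Agent.TH336.ER

open Pool.Agent.W188.QS Pool.Agent.W290.QS Pool.Agent.W571.QS

/-- `x^{-s}` -/
noncomputable def xs (x : ℝ) (s : ℂ) : ℂ := (x : ℂ) ^ (-s)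

theorem cpow_exp {x : ℝ} (hx : 0 < x) (w : ℂ) : (x : ℂ) ^ w = cexp ((Real.log x : ℂ) * w) := by
  have h0 : (x : ℂ) ≠ 0 := by exact_mod_cast hx.ne'
  rw [Complex.cpow_def_of_ne_zero h0, Complex.ofReal_log hx.le]

theorem xs_diff {x : ℝ} (hx : 0 < x) (s : ℂ) : DifferentiableAt ℂ (xs x) s := by
  have h0 : (x : ℂ) ≠ 0 := by exact_mod_cast hx.ne'
  unfold xs
  exact (differentiableAt_id.neg).const_cpow (Or.inl h0)

theorem norm_xs {x : ℝ} (hx : 0 < x) (s : ℂ) : ‖xs x s‖ = x ^ (-s.re) := by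
  unfold xs
  rw [Complex.norm_cpow_eq_rpow_re_of_pos hx, neg_re]

theorem norm_xs_le {x Z : ℝ} (hx : 0 < x) (hZ : 1 ≤ Z) (hxZ : 1 / Z ≤ x) {s : ℂ} (h0 : 0 ≤ s.re)
    (h4 : s.re ≤ 4) : ‖xs x s‖ ≤ Z ^ 4 := by
  rw [norm_xs hx]
  calc x ^ (-s.re) ≤ (1 / Z) ^ (-s.re) :=
        Real.rpow_le_rpow_of_nonpos (by positivity) hxZ (by linarith)
    _ = Z ^ s.re := by
        rw [one_div, Real.inv_rpow (by linarith), Real.rpow_neg (by linarith), inv_inv]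
    _ ≤ Z ^ (4 : ℝ) := Real.rpow_le_rpow_of_exponent_le hZ h4
    _ = Z ^ 4 := by
        rw [show (4 : ℝ) = ((4 : ℕ) : ℝ) by norm_num, Real.rpow_natCast]

theorem conj_xs_rf {x : ℝ} (hx : 0 < x) (s : ℂ) :
    (starRingEnd ℂ) (xs x (rf s)) = ((x⁻¹ : ℝ) : ℂ) * xs x⁻¹ s := by
  unfold xs rf
  rw [cpow_exp hx, cpow_exp (inv_pos.2 hx), ← exp_conj, Real.log_inv]
  have h1 : ((x⁻¹ : ℝ) : ℂ) = cexp (-(Real.log x : ℂ)) := by
    rw [← ofReal_neg, ← ofReal_exp, Real.exp_neg, Real.exp_log hx]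
  rw [h1, ← Complex.exp_add]
  congr 1
  simp only [map_mul, conj_ofReal, map_neg, map_sub, map_one, RingHomCompTriple.comp_apply,
    RingHom.id_apply]
  push_cast
  ring

theorem mono_eq {n l : ℕ} (hn : 1 ≤ n) (hl : 1 ≤ l) (t : ℝ) :
    (n : ℂ) ^ (-cp t) * (starRingEnd ℂ) ((l : ℂ) ^ (-cp t)) =
      1 / (l : ℂ) * xs ((n : ℝ) / (l : ℝ)) (cp t) := by
  have hn0 : (0 : ℝ) < n := by exact_mod_cast hn
  have hl0 : (0 : ℝ) < l := by exact_mod_cast hl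
  have e1 : (n : ℂ) = ((n : ℝ) : ℂ) := by push_cast; rfl
  have e2 : (l : ℂ) = ((l : ℝ) : ℂ) := by push_cast; rfl
  unfold xs
  rw [e1, e2, cpow_exp hn0, cpow_exp hl0, ← exp_conj, cpow_exp (div_pos hn0 hl0),
    Real.log_div hn0.ne' hl0.ne']
  have h1 : 1 / ((l : ℝ) : ℂ) = cexp (-(Real.log l : ℂ)) := by
    rw [← ofReal_neg, ← ofReal_exp, Real.exp_neg, Real.exp_log hl0, ofReal_inv, one_div]
  rw [h1, ← Complex.exp_add, ← Complex.exp_add]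
  congr 1
  have h2 : (starRingEnd ℂ) (cp t) = 1 - cp t := by
    unfold cp
    simp only [map_add, map_div₀, map_one, map_mul, conj_ofReal, conj_I]
    have : (starRingEnd ℂ) (2 : ℂ) = 2 := by
      rw [show (2 : ℂ) = ((2 : ℝ) : ℂ) by norm_num, conj_ofReal]
    rw [this]
    ring
  rw [map_mul, conj_ofReal, map_neg, h2]
  push_cast
  ring

theorem norm_GG_le {T Δ σ t : ℝ} (hΔ : 1 ≤ Δ) (h1 : 1 / 2 ≤ σ) (h4 : σ ≤ 4) :
    ‖GG T Δ (⟨σ, t⟩ : ℂ)‖ ≤ Real.exp 13 := by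
  rw [Pool.Agent.W723.QS.norm_GG T Δ σ t (by linarith)]
  apply Real.exp_le_exp.2
  rw [div_le_iff₀ (by positivity)]
  have h5 : (σ - 1 / 2) ^ 2 ≤ 13 := by nlinarith
  have h6 : 1 ≤ Δ ^ 2 := by nlinarith
  nlinarith [sq_nonneg (t - T)]

/-- `w` on the line `Re s = 4` -/
theorem norm_w_le {K : ℝ} (hX : ∀ s : ℂ, 1 / 2 ≤ s.re → s.re ≤ 4 → 1 ≤ s.im →
    Real.exp (-K) * s.im ^ (s.re - 1 / 2) ≤ ‖XX s‖ ∧ ‖XX s‖ ≤ Real.exp K * s.im ^ (s.re - 1 / 2))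
    {c : ℂ} (hc : ‖c‖ = 1) {P y : ℝ} (hP : 2 ≤ P) (hy : P ^ 8 / 4 ≤ y) :
    ‖ww c 1 (⟨4, y⟩ : ℂ)‖ ≤ 128 * Real.exp K / P ^ 28 := by
  have hP8 : (2 : ℝ) ^ 8 ≤ P ^ 8 := pow_le_pow_left₀ (by norm_num) hP 8
  have hy1 : 1 ≤ y := by linarith
  have h1 := (hX (⟨4, y⟩ : ℂ) (by norm_num) (by norm_num) hy1).1
  simp only at h1
  have h2 : (P ^ 4 / 2) ^ 7 ≤ y ^ ((4 : ℝ) - 1 / 2) := by
    have h3 : (P ^ 4 / 2) ^ 2 ≤ y := by
      have : (P ^ 4 / 2) ^ 2 = P ^ 8 / 4 := by ring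
      linarith
    have h4 : ((P ^ 4 / 2) ^ 2) ^ ((4 : ℝ) - 1 / 2) ≤ y ^ ((4 : ℝ) - 1 / 2) :=
      Real.rpow_le_rpow (by positivity) h3 (by norm_num)
    have h5 : ((P ^ 4 / 2) ^ 2) ^ ((4 : ℝ) - 1 / 2) = (P ^ 4 / 2) ^ 7 := by
      rw [← Real.rpow_natCast (P ^ 4 / 2) 2, ← Real.rpow_mul (by positivity),
        ← Real.rpow_natCast (P ^ 4 / 2) 7]
      norm_num
    rwa [h5] at h4
  have h6 : Real.exp (-K) * (P ^ 28 / 128) ≤ ‖XX (⟨4, y⟩ : ℂ)‖ := by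
    refine le_trans (mul_le_mul_of_nonneg_left ?_ (Real.exp_pos _).le) h1
    have : (P ^ 4 / 2) ^ 7 = P ^ 28 / 128 := by ring
    linarith
  unfold ww
  rw [pow_one, norm_mul, hc, one_mul, norm_inv]
  have h7 : 0 < Real.exp (-K) * (P ^ 28 / 128) := by positivity
  calc ‖XX (⟨4, y⟩ : ℂ)‖⁻¹ ≤ (Real.exp (-K) * (P ^ 28 / 128))⁻¹ := inv_anti₀ h7 h6
    _ = 128 * Real.exp K / P ^ 28 := by
        rw [Real.exp_neg]
        field_simp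

end Pool.Agent.TH336.ER
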