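import Pool.Agent.TH336.ER.Mono1

/-!
Moments of zeta on every ray: monomials, folding.
-/

set_option autoImplicit false

open Complex MeasureTheory Set Filter Topology

namespace Pool.Agent.TH336.ER

open Pool.Agent.W188.QS Pool.Agent.W290.QS Pool.Agent.W571.QS

/-- bounds needed on the four sides -/
structure Sides (c : ℂ) (T Δ a b P C : ℝ) : Prop where
  P2 : 200 ≤ P
  PC : 64 * C ≤ P
  C1 : 1 ≤ C
  TP : T = P ^ 8
  ha : |a - T / 2| ≤ 1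
  hb : |b - 3 * T / 2| ≤ 1
  hΔ : 1 ≤ Δ
  hΔT : Δ ≤ T
  edge : ∀ e : ℝ, e = a ∨ e = b → ∀ σ : ℝ, 1 / 2 ≤ σ → σ ≤ 4 → ‖GG T Δ (⟨σ, e⟩ : ℂ)‖ ≤ 1 / P ^ 48
  wbd : ∀ y : ℝ, P ^ 8 / 4 ≤ y →
    13 * (256 * Real.exp 13) * ‖ww c 1 (⟨4, y⟩ : ℂ)‖ ≤ C / P ^ 28
  xx1 : ∀ s : ℂ, 1 / 2 ≤ s.re → s.re ≤ 4 → 50 ≤ s.im → ‖ww c 1 s‖ ≤ 1

theorem Sides.bd {c : ℂ} {T Δ a b P C : ℝ} (h : Sides c T Δ a b P C) :
    100 ≤ a ∧ a < b ∧ b - a ≤ 2 * P ^ 8 ∧ P ^ 8 / 4 ≤ a ∧ b ≤ 2 * P ^ 8 ∧ 1000 ≤ P ^ 8 := by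
  have hP := h.P2
  have h8 : (200 : ℝ) ^ 8 ≤ P ^ 8 := pow_le_pow_left₀ (by norm_num) hP 8
  have h9 : (1000 : ℝ) ≤ 200 ^ 8 := by norm_num
  have ha := abs_le.1 h.ha
  have hb := abs_le.1 h.hb
  have hT := h.TP
  refine ⟨by linarith, by linarith, by linarith, by linarith, by linarith, by linarith⟩

theorem zeta_bd {P σ y : ℝ} (hP : 1000 ≤ P ^ 8) (h1 : 1 / 2 ≤ σ) (h4 : σ ≤ 4) (hy1 : 1 ≤ y)
    (hy : y ≤ 2 * P ^ 8) : ‖riemannZeta (⟨σ, y⟩ : ℂ)‖ ≤ 13 * P ^ 8 := by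
  have h5 := Pool.Agent.H388LH.zeta_growth (s := (⟨σ, y⟩ : ℂ)) (by simp only; linarith)
    (by simpa using hy1)
  have h6 : ‖(⟨σ, y⟩ : ℂ)‖ ≤ |σ| + |y| := Complex.norm_le_abs_re_add_abs_im _
  rw [abs_of_nonneg (by linarith), abs_of_nonneg (by linarith)] at h6
  linarith

theorem zeta_diff {s : ℂ} (hs : 1 ≤ s.im) : DifferentiableAt ℂ riemannZeta s := by
  apply differentiableAt_riemannZeta
  intro h
  rw [h] at hs
  norm_num at hs

/-- the factor `ζ(s) x^{-s}` -/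
theorem fold_one (h1 : StBasic) (h2 : StLine) {c : ℂ} (hc : ‖c‖ = 1) {T Δ a b P C : ℝ}
    (h : Sides c T Δ a b P C) (hga : Good c 1 a) (hgb : Good c 1 b) (S : Finset ℝ)
    (hS : IsS c a b S) {x : ℝ} (hx : 0 < x) (hx1 : 1 / P ≤ x) (hx2 : 1 / P ≤ x⁻¹) :
    ‖(∑ t ∈ S, ((wg T Δ t : ℝ) : ℂ) * (riemannZeta (cp t) * xs x (cp t))) -
      ((∫ y in a..b, riemannZeta (fp y) * xs x (fp y) * GG T Δ (fp y)) +
        (starRingEnd ℂ) (∫ y in a..b, c * ((x⁻¹ : ℝ) : ℂ) * (riemannZeta (fp y) * xs x⁻¹ (fp y)) *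
          GG T Δ (fp y)))‖ ≤ 1 / (8 * P ^ 4) := by
  obtain ⟨b1, b2, b3, b4, b5, b6⟩ := h.bd
  have hP := h.P2
  have hP0 : 0 < P := by linarith
  have hP1 : 1 ≤ P := by linarith
  have hC := h.C1
  have hxi : 0 < x⁻¹ := inv_pos.2 hx
  have hxP : x⁻¹ ≤ P := by
    rw [inv_le_comm₀ hx hP0, ← one_div]
    exact hx1
  have hf := fold_gen (T := T) (Δ := Δ) (M := 1 / P ^ 30) (M' := C / P ^ 15) h1 h2
    (fun s => riemannZeta s * xs x s)
    (fun s => c * ((x⁻¹ : ℝ) : ℂ) * (riemannZeta s * xs x⁻¹ s))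
    (fun s hs => (zeta_diff hs).mul (xs_diff hx s))
    (fun s hs => ((zeta_diff hs).mul (xs_diff hxi s)).const_mul _) hc b1 b2
    (by
      intro s hs
      obtain ⟨_, hX, _, _, hz, _⟩ := h1 s hs
      rw [map_mul, hz, conj_xs_rf hx]
      simp only [RingHomCompTriple.comp_apply, RingHom.id_apply]
      unfold ww
      rw [pow_one]
      field_simp)
    hga hgb S hS
    (by
      intro e he σ hσ1 hσ4
      have he1 : 1 ≤ e ∧ e ≤ 2 * P ^ 8 := by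
        rcases he with he | he
        · rw [he]; exact ⟨by linarith, by linarith⟩
        · rw [he]; exact ⟨by linarith, by linarith⟩
      have hz := zeta_bd (P := P) b6 hσ1 hσ4 he1.1 he1.2
      have hg := h.edge e he σ hσ1 hσ4
      have hx3 := norm_xs_le hx hP1 hx1 (s := ⟨σ, e⟩) (by simp only; linarith) (by simpa using hσ4)
      have hx4 := norm_xs_le hxi hP1 hx2 (s := ⟨σ, e⟩) (by simp only; linarith) (by simpa using hσ4)
      constructor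
      · rw [norm_mul, norm_mul]
        calc ‖riemannZeta (⟨σ, e⟩ : ℂ)‖ * ‖xs x (⟨σ, e⟩ : ℂ)‖ * ‖GG T Δ (⟨σ, e⟩ : ℂ)‖
            ≤ (13 * P ^ 8) * P ^ 4 * (1 / P ^ 48) := by gcongr
          _ ≤ 1 / P ^ 30 := by
              rw [mul_one_div, div_le_div_iff₀ (by positivity) (by positivity), one_mul]
              calc 13 * P ^ 8 * P ^ 4 * P ^ 30 = 13 * P ^ 42 := by ring
                _ ≤ P * P ^ 42 := by gcongr; linarith
                _ = P ^ 43 := by ring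
                _ ≤ P ^ 48 := pow_le_pow_right₀ hP1 (by norm_num)
      · rw [norm_mul, norm_mul, norm_mul, norm_mul, hc, one_mul, norm_real, Real.norm_eq_abs,
          abs_of_pos hxi]
        calc x⁻¹ * (‖riemannZeta (⟨σ, e⟩ : ℂ)‖ * ‖xs x⁻¹ (⟨σ, e⟩ : ℂ)‖) * ‖GG T Δ (⟨σ, e⟩ : ℂ)‖
            ≤ P * ((13 * P ^ 8) * P ^ 4) * (1 / P ^ 48) := by gcongr
          _ ≤ 1 / P ^ 30 := by
              rw [mul_one_div, div_le_div_iff₀ (by positivity) (by positivity), one_mul]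
              calc P * (13 * P ^ 8 * P ^ 4) * P ^ 30 = 13 * P ^ 43 := by ring
                _ ≤ P * P ^ 43 := by gcongr; linarith
                _ = P ^ 44 := by ring
                _ ≤ P ^ 48 := pow_le_pow_right₀ hP1 (by norm_num))
    (by
      intro y hya hyb
      have hz := zeta_bd (P := P) (σ := 4) b6 (by norm_num) le_rfl (by linarith : 1 ≤ y) (by linarith)
      have hg := norm_GG_le (T := T) (Δ := Δ) (σ := 4) (t := y) h.hΔ (by norm_num) le_rfl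
      have hw := h.wbd y (by linarith)
      have hx3 := norm_xs_le hx hP1 hx1 (s := ⟨4, y⟩) (by norm_num) (by norm_num)
      have hx4 := norm_xs_le hxi hP1 hx2 (s := ⟨4, y⟩) (by norm_num) (by norm_num)
      have hkey : P ^ 13 * (13 * (256 * Real.exp 13) * ‖ww c 1 (⟨4, y⟩ : ℂ)‖) ≤ C / P ^ 15 := by
        calc P ^ 13 * (13 * (256 * Real.exp 13) * ‖ww c 1 (⟨4, y⟩ : ℂ)‖)
            ≤ P ^ 13 * (C / P ^ 28) := by gcongr
          _ = C / P ^ 15 := by field_simp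
      have he := Real.exp_pos 13
      have hn := norm_nonneg (ww c 1 (⟨4, y⟩ : ℂ))
      have hpp : 0 ≤ P ^ 13 * Real.exp 13 * ‖ww c 1 (⟨4, y⟩ : ℂ)‖ := by positivity
      constructor
      · rw [norm_mul, norm_mul]
        calc ‖riemannZeta (⟨4, y⟩ : ℂ)‖ * ‖xs x (⟨4, y⟩ : ℂ)‖ * ‖GG T Δ (⟨4, y⟩ : ℂ)‖ *
              (2 * ‖ww c 1 (⟨4, y⟩ : ℂ)‖)
            ≤ (13 * P ^ 8) * P ^ 4 * Real.exp 13 * (2 * ‖ww c 1 (⟨4, y⟩ : ℂ)‖) := by gcongr
          _ = 26 * (P ^ 12 * Real.exp 13 * ‖ww c 1 (⟨4, y⟩ : ℂ)‖) := by ring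
          _ ≤ 26 * (P ^ 13 * Real.exp 13 * ‖ww c 1 (⟨4, y⟩ : ℂ)‖) := by
              gcongr
              norm_num
          _ ≤ C / P ^ 15 := by nlinarith
      · rw [norm_mul, norm_mul, norm_mul, norm_mul, hc, one_mul, norm_real, Real.norm_eq_abs,
          abs_of_pos hxi]
        calc x⁻¹ * (‖riemannZeta (⟨4, y⟩ : ℂ)‖ * ‖xs x⁻¹ (⟨4, y⟩ : ℂ)‖) * ‖GG T Δ (⟨4, y⟩ : ℂ)‖ *
              (2 * ‖ww c 1 (⟨4, y⟩ : ℂ)‖)
            ≤ P * ((13 * P ^ 8) * P ^ 4) * Real.exp 13 * (2 * ‖ww c 1 (⟨4, y⟩ : ℂ)‖) := by gcongr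
          _ = 26 * (P ^ 13 * Real.exp 13 * ‖ww c 1 (⟨4, y⟩ : ℂ)‖) := by ring
          _ ≤ C / P ^ 15 := by nlinarith)
    (by
      intro y hya
      have hw := h.wbd y (by linarith)
      have he : 1 ≤ Real.exp 13 := Real.one_le_exp (by norm_num)
      have h28 : C / P ^ 28 ≤ 1 := by
        rw [div_le_one (by positivity)]
        calc C ≤ 64 * C := by linarith
          _ ≤ P := h.PC
          _ ≤ P ^ 28 := le_self_pow₀ hP1 (by norm_num)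
      have hn := norm_nonneg (ww c 1 (⟨4, y⟩ : ℂ))
      have : 13 * (256 * 1) * ‖ww c 1 (⟨4, y⟩ : ℂ)‖ ≤ 1 := by
        refine le_trans ?_ (hw.trans h28)
        gcongr
      linarith)
  refine hf.trans ?_
  have e1 : 14 * (1 / P ^ 30) ≤ 1 / (16 * P ^ 4) := by
    rw [mul_one_div, div_le_div_iff₀ (by positivity) (by positivity), one_mul]
    calc 14 * (16 * P ^ 4) = 224 * P ^ 4 := by ring
      _ ≤ (P * P) * P ^ 4 := by
          gcongr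
          nlinarith
      _ = P ^ 6 := by ring
      _ ≤ P ^ 30 := pow_le_pow_right₀ hP1 (by norm_num)
  have e2 : 2 * (C / P ^ 15) * (b - a) ≤ 1 / (16 * P ^ 4) := by
    calc 2 * (C / P ^ 15) * (b - a) ≤ 2 * (C / P ^ 15) * (2 * P ^ 8) := by
          gcongr
      _ = 4 * C / P ^ 7 := by
          field_simp
          ring
      _ ≤ P / 16 / P ^ 7 := by
          have := h.PC
          gcongr
          linarith
      _ = 1 / (16 * P ^ 6) := by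
          field_simp
      _ ≤ 1 / (16 * P ^ 4) := by
          gcongr
          norm_num
  have e3 : 1 / (8 * P ^ 4) = 1 / (16 * P ^ 4) + 1 / (16 * P ^ 4) := by
    field_simp
    norm_num
  rw [e3]
  linarith

/-- the factor `x^{-s}` -/
theorem fold_zero (h1 : StBasic) (h2 : StLine) {c : ℂ} (hc : ‖c‖ = 1) {T Δ a b P C : ℝ}
    (h : Sides c T Δ a b P C) (hga : Good c 1 a) (hgb : Good c 1 b) (S : Finset ℝ)
    (hS : IsS c a b S) {x : ℝ} (hx : 0 < x) (hx1 : 1 / P ≤ x) (hx2 : 1 / P ≤ x⁻¹) :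
    ‖(∑ t ∈ S, ((wg T Δ t : ℝ) : ℂ) * xs x (cp t)) -
      (∫ y in a..b, xs x (fp y) * GG T Δ (fp y))‖ ≤ 1 / (4 * P ^ 4) := by
  obtain ⟨b1, b2, b3, b4, b5, b6⟩ := h.bd
  have hP := h.P2
  have hP0 : 0 < P := by linarith
  have hP1 : 1 ≤ P := by linarith
  have hC := h.C1
  have hxi : 0 < x⁻¹ := inv_pos.2 hx
  have hxP : x⁻¹ ≤ P := by
    rw [inv_le_comm₀ hx hP0, ← one_div]
    exact hx1
  have hw12 : ∀ y : ℝ, a ≤ y → ‖ww c 1 (⟨4, y⟩ : ℂ)‖ ≤ 1 / 2 := by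
    intro y hya
    have hw := h.wbd y (by linarith)
    have he : 1 ≤ Real.exp 13 := Real.one_le_exp (by norm_num)
    have h28 : C / P ^ 28 ≤ 1 := by
      rw [div_le_one (by positivity)]
      calc C ≤ 64 * C := by linarith
        _ ≤ P := h.PC
        _ ≤ P ^ 28 := le_self_pow₀ hP1 (by norm_num)
    have hn := norm_nonneg (ww c 1 (⟨4, y⟩ : ℂ))
    have : 13 * (256 * 1) * ‖ww c 1 (⟨4, y⟩ : ℂ)‖ ≤ 1 := by
      refine le_trans ?_ (hw.trans h28)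
      gcongr
    linarith
  have hkey : ∀ y : ℝ, a ≤ y → P ^ 13 * (13 * (256 * Real.exp 13) * ‖ww c 1 (⟨4, y⟩ : ℂ)‖) ≤
      C / P ^ 15 := by
    intro y hya
    have hw := h.wbd y (by linarith)
    calc P ^ 13 * (13 * (256 * Real.exp 13) * ‖ww c 1 (⟨4, y⟩ : ℂ)‖)
        ≤ P ^ 13 * (C / P ^ 28) := by gcongr
      _ = C / P ^ 15 := by field_simp
  have hKv : ∀ y : ℝ, a ≤ y → ‖((x⁻¹ : ℝ) : ℂ) * xs x⁻¹ (⟨4, y⟩ : ℂ) * ww c 1 (⟨4, y⟩ : ℂ) *
      GG T Δ (⟨4, y⟩ : ℂ)‖ ≤ P ^ 13 * Real.exp 13 * ‖ww c 1 (⟨4, y⟩ : ℂ)‖ := by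
    intro y hya
    have hg := norm_GG_le (T := T) (Δ := Δ) (σ := 4) (t := y) h.hΔ (by norm_num) le_rfl
    have hx4 := norm_xs_le hxi hP1 hx2 (s := ⟨4, y⟩) (by norm_num) (by norm_num)
    rw [norm_mul, norm_mul, norm_mul, norm_real, Real.norm_eq_abs, abs_of_pos hxi]
    calc x⁻¹ * ‖xs x⁻¹ (⟨4, y⟩ : ℂ)‖ * ‖ww c 1 (⟨4, y⟩ : ℂ)‖ * ‖GG T Δ (⟨4, y⟩ : ℂ)‖
        ≤ P * P ^ 4 * ‖ww c 1 (⟨4, y⟩ : ℂ)‖ * Real.exp 13 := by gcongr
      _ = P ^ 5 * Real.exp 13 * ‖ww c 1 (⟨4, y⟩ : ℂ)‖ := by ring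
      _ ≤ P ^ 13 * Real.exp 13 * ‖ww c 1 (⟨4, y⟩ : ℂ)‖ := by
          gcongr
          norm_num
  have hf := fold_gen (T := T) (Δ := Δ) (M := 1 / P ^ 30) (M' := C / P ^ 15) h1 h2
    (fun s => xs x s)
    (fun s => ((x⁻¹ : ℝ) : ℂ) * xs x⁻¹ s * ww c 1 s)
    (fun s hs => xs_diff hx s)
    (fun s hs => ((xs_diff hxi s).const_mul _).mul (ww_diff h1 c 1 hs)) hc b1 b2
    (by
      intro s hs
      rw [conj_xs_rf hx])
    hga hgb S hS
    (by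
      intro e he σ hσ1 hσ4
      have he1 : 50 ≤ e := by
        rcases he with he | he
        · rw [he]; linarith
        · rw [he]; linarith
      have hg := h.edge e he σ hσ1 hσ4
      have hx3 := norm_xs_le hx hP1 hx1 (s := ⟨σ, e⟩) (by simp only; linarith) (by simpa using hσ4)
      have hx4 := norm_xs_le hxi hP1 hx2 (s := ⟨σ, e⟩) (by simp only; linarith) (by simpa using hσ4)
      have hw1 := h.xx1 (⟨σ, e⟩ : ℂ) hσ1 hσ4 he1
      constructor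
      · rw [norm_mul]
        calc ‖xs x (⟨σ, e⟩ : ℂ)‖ * ‖GG T Δ (⟨σ, e⟩ : ℂ)‖
            ≤ P ^ 4 * (1 / P ^ 48) := by gcongr
          _ ≤ 1 / P ^ 30 := by
              rw [mul_one_div, div_le_div_iff₀ (by positivity) (by positivity), one_mul,
                ← pow_add]
              exact pow_le_pow_right₀ hP1 (by norm_num)
      · rw [norm_mul, norm_mul, norm_mul, norm_real, Real.norm_eq_abs, abs_of_pos hxi]
        calc x⁻¹ * ‖xs x⁻¹ (⟨σ, e⟩ : ℂ)‖ * ‖ww c 1 (⟨σ, e⟩ : ℂ)‖ * ‖GG T Δ (⟨σ, e⟩ : ℂ)‖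
            ≤ P * P ^ 4 * 1 * (1 / P ^ 48) := by gcongr
          _ ≤ 1 / P ^ 30 := by
              rw [mul_one_div, div_le_div_iff₀ (by positivity) (by positivity), one_mul, mul_one,
                ← pow_succ', ← pow_add]
              exact pow_le_pow_right₀ hP1 (by norm_num))
    (by
      intro y hya hyb
      have hg := norm_GG_le (T := T) (Δ := Δ) (σ := 4) (t := y) h.hΔ (by norm_num) le_rfl
      have hx3 := norm_xs_le hx hP1 hx1 (s := ⟨4, y⟩) (by norm_num) (by norm_num)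
      have he := Real.exp_pos 13
      have hn := norm_nonneg (ww c 1 (⟨4, y⟩ : ℂ))
      have hpp : 0 ≤ P ^ 13 * Real.exp 13 * ‖ww c 1 (⟨4, y⟩ : ℂ)‖ := by positivity
      have hk := hkey y hya
      constructor
      · rw [norm_mul]
        calc ‖xs x (⟨4, y⟩ : ℂ)‖ * ‖GG T Δ (⟨4, y⟩ : ℂ)‖ * (2 * ‖ww c 1 (⟨4, y⟩ : ℂ)‖)
            ≤ P ^ 4 * Real.exp 13 * (2 * ‖ww c 1 (⟨4, y⟩ : ℂ)‖) := by gcongr
          _ = 2 * (P ^ 4 * Real.exp 13 * ‖ww c 1 (⟨4, y⟩ : ℂ)‖) := by ring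
          _ ≤ 2 * (P ^ 13 * Real.exp 13 * ‖ww c 1 (⟨4, y⟩ : ℂ)‖) := by
              gcongr
              norm_num
          _ ≤ C / P ^ 15 := by nlinarith
      · have h3 := hKv y hya
        have h4 := hw12 y hya
        calc ‖((x⁻¹ : ℝ) : ℂ) * xs x⁻¹ (⟨4, y⟩ : ℂ) * ww c 1 (⟨4, y⟩ : ℂ) * GG T Δ (⟨4, y⟩ : ℂ)‖ *
              (2 * ‖ww c 1 (⟨4, y⟩ : ℂ)‖)
            ≤ (P ^ 13 * Real.exp 13 * ‖ww c 1 (⟨4, y⟩ : ℂ)‖) * 1 := by
              refine mul_le_mul h3 (by linarith) (by positivity) (by positivity)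
          _ ≤ C / P ^ 15 := by nlinarith)
    hw12
  have hK2 : ‖∫ y in a..b, ((x⁻¹ : ℝ) : ℂ) * xs x⁻¹ (fp y) * ww c 1 (fp y) * GG T Δ (fp y)‖ ≤
      C / P ^ 15 * (b - a) := by
    have h3 : ∀ y ∈ Set.uIoc a b, ‖((x⁻¹ : ℝ) : ℂ) * xs x⁻¹ (fp y) * ww c 1 (fp y) *
        GG T Δ (fp y)‖ ≤ C / P ^ 15 := by
      intro y hy
      rw [Set.uIoc_of_le b2.le] at hy
      rw [fp_eq]
      refine (hKv y hy.1.le).trans ?_
      have hk := hkey y hy.1.le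
      have hpp : 0 ≤ P ^ 13 * Real.exp 13 * ‖ww c 1 (⟨4, y⟩ : ℂ)‖ := by positivity
      nlinarith
    have h4 := intervalIntegral.norm_integral_le_of_norm_le_const h3
    rwa [abs_of_pos (by linarith)] at h4
  have e1 : 14 * (1 / P ^ 30) ≤ 1 / (16 * P ^ 4) := by
    rw [mul_one_div, div_le_div_iff₀ (by positivity) (by positivity), one_mul]
    calc 14 * (16 * P ^ 4) = 224 * P ^ 4 := by ring
      _ ≤ (P * P) * P ^ 4 := by
          gcongr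
          nlinarith
      _ = P ^ 6 := by ring
      _ ≤ P ^ 30 := pow_le_pow_right₀ hP1 (by norm_num)
  have e2 : 2 * (C / P ^ 15) * (b - a) ≤ 1 / (16 * P ^ 4) := by
    calc 2 * (C / P ^ 15) * (b - a) ≤ 2 * (C / P ^ 15) * (2 * P ^ 8) := by
          gcongr
      _ = 4 * C / P ^ 7 := by
          field_simp
          ring
      _ ≤ P / 16 / P ^ 7 := by
          have := h.PC
          gcongr
          linarith
      _ = 1 / (16 * P ^ 6) := by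
          field_simp
      _ ≤ 1 / (16 * P ^ 4) := by
          gcongr
          norm_num
  have e3 : 1 / (4 * P ^ 4) = 4 * (1 / (16 * P ^ 4)) := by
    field_simp
    norm_num
  have e4 : 0 ≤ 1 / (16 * P ^ 4) := by positivity
  rw [e3]
  generalize (∫ y in a..b, ((x⁻¹ : ℝ) : ℂ) * xs x⁻¹ (fp y) * ww c 1 (fp y) * GG T Δ (fp y)) = q at *
  generalize (∫ y in a..b, xs x (fp y) * GG T Δ (fp y)) = p at *
  generalize (∑ t ∈ S, ((wg T Δ t : ℝ) : ℂ) * xs x (cp t)) = r at *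
  have e5 : r - p = (r - (p + (starRingEnd ℂ) q)) + (starRingEnd ℂ) q := by ring
  rw [e5]
  refine (norm_add_le _ _).trans ?_
  rw [RCLike.norm_conj]
  linarith

end Pool.Agent.TH336.ER
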