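import Pool.Agent.TH336.ER.Mono2
import Pool.Agent.W22.QS.Basic
import Pool.Agent.W338.QS.Line
import Pool.Agent.W563.QS.Good

/-!
Moments of zeta on every ray: discrete mean values of monomials.
-/

set_option autoImplicit false

open Complex MeasureTheory Set Filter Topology

namespace Pool.Agent.TH336.ER

open Pool.Agent.W188.QS Pool.Agent.W290.QS Pool.Agent.W571.QS

theorem log_ratio {n l Z : ℕ} (hn : 1 ≤ n) (hnZ : n ≤ Z) (hl : 1 ≤ l) (hlZ : l ≤ Z) (h : n ≠ l) :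
    1 / (Z : ℝ) ≤ |Real.log ((n : ℝ) / l)| := by
  have hn0 : (0 : ℝ) < n := by exact_mod_cast hn
  have hl0 : (0 : ℝ) < l := by exact_mod_cast hl
  have hnZ' : (n : ℝ) ≤ Z := by exact_mod_cast hnZ
  have hlZ' : (l : ℝ) ≤ Z := by exact_mod_cast hlZ
  rcases Nat.lt_or_gt_of_ne h with h | h
  · have h1 : (n : ℝ) + 1 ≤ l := by exact_mod_cast h
    have h2 : 1 - ((l : ℝ) / n)⁻¹ ≤ Real.log ((l : ℝ) / n) :=
      Real.one_sub_inv_le_log_of_pos (by positivity)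
    have h3 : Real.log ((n : ℝ) / l) = -Real.log ((l : ℝ) / n) := by
      rw [← Real.log_inv, inv_div]
    rw [h3, abs_neg]
    refine le_trans ?_ (le_abs_self _)
    refine le_trans ?_ h2
    rw [inv_div]
    have h4 : 1 / (Z : ℝ) ≤ 1 / l := one_div_le_one_div_of_le hl0 hlZ'
    have h5 : 1 / (l : ℝ) ≤ 1 - n / l := by
      rw [show (1 : ℝ) - n / l = (l - n) / l by field_simp]
      exact div_le_div_of_nonneg_right (by linarith) hl0.le
    linarith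
  · have h1 : (l : ℝ) + 1 ≤ n := by exact_mod_cast h
    have h2 : 1 - ((n : ℝ) / l)⁻¹ ≤ Real.log ((n : ℝ) / l) :=
      Real.one_sub_inv_le_log_of_pos (by positivity)
    refine le_trans ?_ (le_abs_self _)
    refine le_trans ?_ h2
    rw [inv_div]
    have h4 : 1 / (Z : ℝ) ≤ 1 / n := one_div_le_one_div_of_le hn0 hnZ'
    have h5 : 1 / (n : ℝ) ≤ 1 - l / n := by
      rw [show (1 : ℝ) - l / n = (n - l) / n by field_simp]
      exact div_le_div_of_nonneg_right (by linarith) hn0.le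
    linarith

theorem mono_zero (h1 : StBasic) (h2 : StLine) {c : ℂ} (hc : ‖c‖ = 1) {T Δ a b P C : ℝ}
    (hSd : Sides c T Δ a b P C) (hga : Good c 1 a) (hgb : Good c 1 b) (S : Finset ℝ)
    (hSS : IsS c a b S) {n l Z : ℕ} (hn : 1 ≤ n) (hnZ : n ≤ Z) (hl : 1 ≤ l) (hlZ : l ≤ Z)
    (hZP : (Z : ℝ) ≤ P) (hlog : 40 ≤ Real.log T) (hZΔ : (Z : ℝ) * Real.log T ≤ Δ)
    (hg : ‖(∫ y in a..b, (((n : ℝ) / (l : ℝ) : ℝ) : ℂ) ^ (-fp y) * GG T Δ (fp y)) -
      ((√Real.pi * Δ * Real.exp (-(Δ ^ 2 * Real.log ((n : ℝ) / (l : ℝ)) ^ 2 / 4)) : ℝ) : ℂ) *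
        (((n : ℝ) / (l : ℝ) : ℝ) : ℂ) ^ (-cp T)‖ ≤
      ((n : ℝ) / (l : ℝ)) ^ (-(4 : ℝ)) * T ^ (-(6 : ℝ))) :
    ‖(∑ t ∈ S, ((wg T Δ t : ℝ) : ℂ) *
          ((n : ℂ) ^ (-cp t) * (starRingEnd ℂ) ((l : ℂ) ^ (-cp t)))) -
        ((√Real.pi * Δ : ℝ) : ℂ) * (if n = l then 1 / (l : ℂ) else 0)‖ ≤ 1 / P ^ 4 := by
  have hP2 := hSd.P2
  have hP0 : 0 < P := by linarith
  have hP1 : 1 ≤ P := by linarith
  have hTP := hSd.TP
  have hT0 : 0 < T := by rw [hTP]; positivity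
  have hpow : ∀ m : ℕ, T ^ (-(m : ℝ)) = 1 / P ^ (8 * m) := by
    intro m
    rw [Real.rpow_neg hT0.le, Real.rpow_natCast, hTP, ← pow_mul, one_div]
  have h6 : T ^ (-(6 : ℝ)) = 1 / P ^ 48 := by
    rw [show (-(6 : ℝ)) = -((6 : ℕ) : ℝ) by norm_num, hpow]
  have h3 : T ^ (-(3 : ℝ)) = 1 / P ^ 24 := by
    rw [show (-(3 : ℝ)) = -((3 : ℕ) : ℝ) by norm_num, hpow]
  have hn0 : (0 : ℝ) < n := by exact_mod_cast hn
  have hl0 : (0 : ℝ) < l := by exact_mod_cast hl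
  have hn1 : (1 : ℝ) ≤ n := by exact_mod_cast hn
  have hl1 : (1 : ℝ) ≤ l := by exact_mod_cast hl
  have hnZ' : (n : ℝ) ≤ P := le_trans (by exact_mod_cast hnZ) hZP
  have hlZ' : (l : ℝ) ≤ P := le_trans (by exact_mod_cast hlZ) hZP
  have hZ1 : (1 : ℝ) ≤ Z := by exact_mod_cast hn.trans hnZ
  have hΔ40 : 40 ≤ Δ := by nlinarith
  have hΔT := hSd.hΔT
  set x : ℝ := (n : ℝ) / l with hx
  have hx0 : 0 < x := div_pos hn0 hl0
  have hxi : x⁻¹ = (l : ℝ) / n := by rw [hx, inv_div]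
  have hx1 : 1 / P ≤ x := by
    rw [hx, div_le_div_iff₀ hP0 hl0, one_mul]
    nlinarith
  have hx2 : 1 / P ≤ x⁻¹ := by
    rw [hxi, div_le_div_iff₀ hP0 hn0, one_mul]
    nlinarith
  have hl1' : ‖1 / (l : ℂ)‖ ≤ 1 := by
    rw [norm_div, norm_one, Complex.norm_natCast]
    rw [div_le_one hl0]
    exact hl1
  have hf := fold_zero h1 h2 hc hSd hga hgb _ hSS hx0 hx1 hx2
  have hx4 : x ^ (-(4 : ℝ)) ≤ P ^ 4 := by
    have := norm_xs_le hx0 hP1 hx1 (s := (4 : ℂ)) (by norm_num) (by norm_num)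
    rw [norm_xs hx0] at this
    simpa using this
  have hg2 : x ^ (-(4 : ℝ)) * T ^ (-(6 : ℝ)) ≤ 1 / (4 * P ^ 4) := by
    rw [h6]
    calc x ^ (-(4 : ℝ)) * (1 / P ^ 48) ≤ P ^ 4 * (1 / P ^ 48) := by gcongr
      _ = 1 / P ^ 44 := by field_simp
      _ ≤ 1 / (4 * P ^ 4) := by
          apply one_div_le_one_div_of_le (by positivity)
          calc 4 * P ^ 4 ≤ P * P ^ 4 := by gcongr; linarith
            _ = P ^ 5 := by ring
            _ ≤ P ^ 44 := pow_le_pow_right₀ hP1 (by norm_num)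
  have hmain : ‖((√Real.pi * Δ * Real.exp (-(Δ ^ 2 * Real.log x ^ 2 / 4)) : ℝ) : ℂ) *
      (x : ℂ) ^ (-cp T) - (if n = l then ((√Real.pi * Δ : ℝ) : ℂ) else 0)‖ ≤ 1 / (4 * P ^ 4) := by
    by_cases hnl : n = l
    · have hx11 : x = 1 := by rw [hx, hnl]; field_simp
      rw [if_pos hnl, hx11]
      simp only [Real.log_one, ofReal_one, one_cpow, mul_one]
      norm_num
      positivity
    · rw [if_neg hnl, sub_zero, norm_mul]
      have hL := log_ratio hn hnZ hl hlZ hnl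
      have hL2 : 1 / (Z : ℝ) ^ 2 ≤ Real.log x ^ 2 := by
        rw [← sq_abs (Real.log x)]
        calc 1 / (Z : ℝ) ^ 2 = (1 / (Z : ℝ)) ^ 2 := by rw [div_pow, one_pow]
          _ ≤ |Real.log x| ^ 2 := pow_le_pow_left₀ (by positivity) hL 2
      have hD : Real.log T ^ 2 ≤ Δ ^ 2 * Real.log x ^ 2 := by
        have hZ0 : (Z : ℝ) ≠ 0 := by linarith
        calc Real.log T ^ 2 = ((Z : ℝ) * Real.log T) ^ 2 * (1 / (Z : ℝ) ^ 2) := by
              field_simp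
          _ ≤ Δ ^ 2 * Real.log x ^ 2 := by
              gcongr
      have he : Real.exp (-(Δ ^ 2 * Real.log x ^ 2 / 4)) ≤ 1 / P ^ 24 := by
        rw [← h3, Real.rpow_def_of_pos hT0]
        apply Real.exp_le_exp.2
        nlinarith
      have hnx : ‖(x : ℂ) ^ (-cp T)‖ ≤ P ^ 4 := by
        have := norm_xs_le hx0 hP1 hx1 (s := cp T) (by rw [cp_re]; norm_num) (by rw [cp_re]; norm_num)
        exact this
      have hsp : √Real.pi ≤ 2 := by
        rw [Real.sqrt_le_left (by norm_num)]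
        linarith [Real.pi_le_four]
      have hnn : ‖((√Real.pi * Δ * Real.exp (-(Δ ^ 2 * Real.log x ^ 2 / 4)) : ℝ) : ℂ)‖ ≤
          2 * P ^ 8 * (1 / P ^ 24) := by
        rw [norm_real, Real.norm_eq_abs, abs_of_nonneg (by positivity)]
        have : Δ ≤ P ^ 8 := by linarith
        gcongr
      calc ‖((√Real.pi * Δ * Real.exp (-(Δ ^ 2 * Real.log x ^ 2 / 4)) : ℝ) : ℂ)‖ *
            ‖(x : ℂ) ^ (-cp T)‖ ≤ (2 * P ^ 8 * (1 / P ^ 24)) * P ^ 4 := by
            refine mul_le_mul hnn hnx (norm_nonneg _) (by positivity)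
        _ = 2 / P ^ 12 := by field_simp
        _ ≤ 1 / (4 * P ^ 4) := by
            rw [div_le_div_iff₀ (by positivity) (by positivity), one_mul]
            calc 2 * (4 * P ^ 4) = 8 * P ^ 4 := by ring
              _ ≤ P * P ^ 4 := by gcongr; linarith
              _ = P ^ 5 := by ring
              _ ≤ P ^ 12 := pow_le_pow_right₀ hP1 (by norm_num)
  have hsum : (∑ t ∈ S, ((wg T Δ t : ℝ) : ℂ) *
      ((n : ℂ) ^ (-cp t) * (starRingEnd ℂ) ((l : ℂ) ^ (-cp t)))) =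
      1 / (l : ℂ) * ∑ t ∈ S, ((wg T Δ t : ℝ) : ℂ) * xs x (cp t) := by
    rw [Finset.mul_sum]
    refine Finset.sum_congr rfl fun t _ => ?_
    rw [mono_eq hn hl]
    ring
  have hmt : ((√Real.pi * Δ : ℝ) : ℂ) * (if n = l then 1 / (l : ℂ) else 0) =
      1 / (l : ℂ) * (if n = l then ((√Real.pi * Δ : ℝ) : ℂ) else 0) := by
    split_ifs
    · ring
    · ring
  rw [hsum, hmt, ← mul_sub, norm_mul]
  have hxs : ∀ y : ℝ, xs x (fp y) = (x : ℂ) ^ (-fp y) := fun _ => rfl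
  simp only [hxs] at hf
  refine le_trans (mul_le_mul hl1' ?_ (norm_nonneg _) zero_le_one) (le_of_eq (one_mul _))
  generalize (∑ t ∈ S, ((wg T Δ t : ℝ) : ℂ) * xs x (cp t)) = r at *
  generalize (∫ y in a..b, (x : ℂ) ^ (-fp y) * GG T Δ (fp y)) = p at *
  generalize ((√Real.pi * Δ * Real.exp (-(Δ ^ 2 * Real.log x ^ 2 / 4)) : ℝ) : ℂ) *
      (x : ℂ) ^ (-cp T) = q at *
  generalize (if n = l then ((√Real.pi * Δ : ℝ) : ℂ) else 0) = w at *
  have e1 : r - w = (r - p) + (p - q) + (q - w) := by ring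
  rw [e1]
  have e2 := norm_add_le ((r - p) + (p - q)) (q - w)
  have e3 := norm_add_le (r - p) (p - q)
  have e4 : 1 / P ^ 4 = 4 * (1 / (4 * P ^ 4)) := by field_simp
  have e5 : 0 ≤ 1 / (4 * P ^ 4) := by positivity
  rw [e4]
  linarith

theorem mono_one (h1 : StBasic) (h2 : StLine) {c : ℂ} (hc : ‖c‖ = 1) {T Δ a b P C : ℝ}
    (hSd : Sides c T Δ a b P C) (hga : Good c 1 a) (hgb : Good c 1 b) (S : Finset ℝ)
    (hSS : IsS c a b S) {n l Z : ℕ} (hn : 1 ≤ n) (hnZ : n ≤ Z) (hl : 1 ≤ l) (hlZ : l ≤ Z)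
    (hZP : (Z : ℝ) ≤ P)
    (hz1 : ‖(∫ y in a..b, riemannZeta (fp y) * (((n : ℝ) / (l : ℝ) : ℝ) : ℂ) ^ (-fp y) *
      GG T Δ (fp y)) - (if n ∣ l then ((√Real.pi * Δ : ℝ) : ℂ) else 0)‖ ≤ T ^ (-(2 : ℝ)))
    (hz2 : ‖(∫ y in a..b, riemannZeta (fp y) * (((l : ℝ) / (n : ℝ) : ℝ) : ℂ) ^ (-fp y) *
      GG T Δ (fp y)) - (if l ∣ n then ((√Real.pi * Δ : ℝ) : ℂ) else 0)‖ ≤ T ^ (-(2 : ℝ))) :
    ‖(∑ t ∈ S, ((wg T Δ t : ℝ) : ℂ) * (riemannZeta (cp t) *
          ((n : ℂ) ^ (-cp t) * (starRingEnd ℂ) ((l : ℂ) ^ (-cp t))))) -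
        ((√Real.pi * Δ : ℝ) : ℂ) * ((if n ∣ l then 1 / (l : ℂ) else 0) +
          (starRingEnd ℂ) c * (if l ∣ n then 1 / (n : ℂ) else 0))‖ ≤ 1 / P ^ 4 := by
  have hP2 := hSd.P2
  have hP0 : 0 < P := by linarith
  have hP1 : 1 ≤ P := by linarith
  have hTP := hSd.TP
  have hT0 : 0 < T := by rw [hTP]; positivity
  have hpow : ∀ m : ℕ, T ^ (-(m : ℝ)) = 1 / P ^ (8 * m) := by
    intro m
    rw [Real.rpow_neg hT0.le, Real.rpow_natCast, hTP, ← pow_mul, one_div]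
  have h2' : T ^ (-(2 : ℝ)) = 1 / P ^ 16 := by
    rw [show (-(2 : ℝ)) = -((2 : ℕ) : ℝ) by norm_num, hpow]
  have hn0 : (0 : ℝ) < n := by exact_mod_cast hn
  have hl0 : (0 : ℝ) < l := by exact_mod_cast hl
  have hn1 : (1 : ℝ) ≤ n := by exact_mod_cast hn
  have hl1 : (1 : ℝ) ≤ l := by exact_mod_cast hl
  have hnZ' : (n : ℝ) ≤ P := le_trans (by exact_mod_cast hnZ) hZP
  have hlZ' : (l : ℝ) ≤ P := le_trans (by exact_mod_cast hlZ) hZP
  set x : ℝ := (n : ℝ) / l with hx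
  have hx0 : 0 < x := div_pos hn0 hl0
  have hxi : x⁻¹ = (l : ℝ) / n := by rw [hx, inv_div]
  have hx1 : 1 / P ≤ x := by
    rw [hx, div_le_div_iff₀ hP0 hl0, one_mul]
    nlinarith
  have hx2 : 1 / P ≤ x⁻¹ := by
    rw [hxi, div_le_div_iff₀ hP0 hn0, one_mul]
    nlinarith
  have hl1' : ‖1 / (l : ℂ)‖ ≤ 1 := by
    rw [norm_div, norm_one, Complex.norm_natCast]
    rw [div_le_one hl0]
    exact hl1
  have hf := fold_one h1 h2 hc hSd hga hgb _ hSS hx0 hx1 hx2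
  rw [h2'] at hz1 hz2
  have hsum : (∑ t ∈ S, ((wg T Δ t : ℝ) : ℂ) * (riemannZeta (cp t) *
      ((n : ℂ) ^ (-cp t) * (starRingEnd ℂ) ((l : ℂ) ^ (-cp t))))) =
      1 / (l : ℂ) * ∑ t ∈ S, ((wg T Δ t : ℝ) : ℂ) *
        (riemannZeta (cp t) * xs x (cp t)) := by
    rw [Finset.mul_sum]
    refine Finset.sum_congr rfl fun t _ => ?_
    rw [mono_eq hn hl]
    ring
  have hln : ((x⁻¹ : ℝ) : ℂ) = (l : ℂ) / n := by
    rw [hxi]
    push_cast
    rfl
  have hn0' : (n : ℂ) ≠ 0 := by exact_mod_cast hn0.ne'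
  have hl0' : (l : ℂ) ≠ 0 := by exact_mod_cast hl0.ne'
  have hmt : ((√Real.pi * Δ : ℝ) : ℂ) * ((if n ∣ l then 1 / (l : ℂ) else 0) +
        (starRingEnd ℂ) c * (if l ∣ n then 1 / (n : ℂ) else 0)) =
      1 / (l : ℂ) * ((if n ∣ l then ((√Real.pi * Δ : ℝ) : ℂ) else 0) +
        (starRingEnd ℂ) (c * ((x⁻¹ : ℝ) : ℂ) * (if l ∣ n then ((√Real.pi * Δ : ℝ) : ℂ) else 0))) := by
    rw [map_mul, map_mul, conj_ofReal, hln]
    have : (starRingEnd ℂ) (if l ∣ n then ((√Real.pi * Δ : ℝ) : ℂ) else 0) =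
        (if l ∣ n then ((√Real.pi * Δ : ℝ) : ℂ) else 0) := by
      split_ifs
      · rw [conj_ofReal]
      · rw [map_zero]
    rw [this]
    split_ifs
    · field_simp
    · field_simp
      ring
    · field_simp
      ring
    · ring
  have hint : (∫ y in a..b, c * ((x⁻¹ : ℝ) : ℂ) * (riemannZeta (fp y) * xs x⁻¹ (fp y)) *
        GG T Δ (fp y)) = c * ((x⁻¹ : ℝ) : ℂ) *
      ∫ y in a..b, riemannZeta (fp y) * (((l : ℝ) / (n : ℝ) : ℝ) : ℂ) ^ (-fp y) *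
        GG T Δ (fp y) := by
    rw [← intervalIntegral.integral_const_mul]
    refine intervalIntegral.integral_congr (fun y _ => ?_)
    unfold xs
    rw [← hxi]
    ring
  rw [hint] at hf
  have hxs : ∀ y : ℝ, xs x (fp y) = (x : ℂ) ^ (-fp y) := fun _ => rfl
  simp only [hxs] at hf
  rw [hsum, hmt, ← mul_sub, norm_mul]
  refine le_trans (mul_le_mul hl1' ?_ (norm_nonneg _) zero_le_one) (le_of_eq (one_mul _))
  generalize (∑ t ∈ S, ((wg T Δ t : ℝ) : ℂ) *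
        (riemannZeta (cp t) * xs x (cp t))) = r at *
  generalize (∫ y in a..b, riemannZeta (fp y) * (x : ℂ) ^ (-fp y) * GG T Δ (fp y)) = p at *
  generalize (∫ y in a..b, riemannZeta (fp y) * (((l : ℝ) / (n : ℝ) : ℝ) : ℂ) ^ (-fp y) *
        GG T Δ (fp y)) = q at *
  generalize (if n ∣ l then ((√Real.pi * Δ : ℝ) : ℂ) else 0) = w1 at *
  generalize (if l ∣ n then ((√Real.pi * Δ : ℝ) : ℂ) else 0) = w2 at *
  have e1 : r - (w1 + (starRingEnd ℂ) (c * ((x⁻¹ : ℝ) : ℂ) * w2)) =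
      (r - (p + (starRingEnd ℂ) (c * ((x⁻¹ : ℝ) : ℂ) * q))) + (p - w1) +
        (starRingEnd ℂ) (c * ((x⁻¹ : ℝ) : ℂ) * (q - w2)) := by
    simp only [map_mul, map_sub]
    ring
  rw [e1]
  have e2 := norm_add_le ((r - (p + (starRingEnd ℂ) (c * ((x⁻¹ : ℝ) : ℂ) * q))) + (p - w1))
    ((starRingEnd ℂ) (c * ((x⁻¹ : ℝ) : ℂ) * (q - w2)))
  have e3 := norm_add_le (r - (p + (starRingEnd ℂ) (c * ((x⁻¹ : ℝ) : ℂ) * q))) (p - w1)
  have hxP : x⁻¹ ≤ P := by
    rw [inv_le_comm₀ hx0 hP0, ← one_div]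
    exact hx1
  have e4 : ‖(starRingEnd ℂ) (c * ((x⁻¹ : ℝ) : ℂ) * (q - w2))‖ ≤ 1 / (8 * P ^ 4) := by
    rw [RCLike.norm_conj, norm_mul, norm_mul, hc, one_mul, norm_real, Real.norm_eq_abs,
      abs_of_pos (inv_pos.2 hx0)]
    calc x⁻¹ * ‖q - w2‖ ≤ P * (1 / P ^ 16) := by
          refine mul_le_mul hxP hz2 (norm_nonneg _) hP0.le
      _ = 1 / P ^ 15 := by field_simp
      _ ≤ 1 / (8 * P ^ 4) := by
          apply one_div_le_one_div_of_le (by positivity)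
          calc 8 * P ^ 4 ≤ P * P ^ 4 := by gcongr; linarith
            _ = P ^ 5 := by ring
            _ ≤ P ^ 15 := pow_le_pow_right₀ hP1 (by norm_num)
  have e5 : ‖p - w1‖ ≤ 1 / (8 * P ^ 4) := by
    refine le_trans hz1 ?_
    apply one_div_le_one_div_of_le (by positivity)
    calc 8 * P ^ 4 ≤ P * P ^ 4 := by gcongr; linarith
      _ = P ^ 5 := by ring
      _ ≤ P ^ 16 := pow_le_pow_right₀ hP1 (by norm_num)
  have e6 : 1 / P ^ 4 = 8 * (1 / (8 * P ^ 4)) := by field_simp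
  have e7 : 0 ≤ 1 / (8 * P ^ 4) := by positivity
  rw [e6]
  linarith

theorem mono (hG : GaussFp) (hZ : GaussZeta) : StMono := by
  have h1 : StBasic := Pool.Agent.W22.QS.qs_basic
  have h2 : StLine := Pool.Agent.W338.QS.qs_line
  have h3 : StGood := Pool.Agent.W563.QS.Good.qs_good h2
  have h4 : StEdge := Pool.Agent.W723.QS.qs_edge h2
  obtain ⟨B1, T1, hB1, hT1, hG⟩ := hG
  obtain ⟨B2, T2, hB2, hT2, hZ⟩ := hZ
  obtain ⟨B3, T3, hB3, hT3, hE⟩ := h4 0 6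
  obtain ⟨T4, hT4, hgood⟩ := h3 1 le_rfl
  obtain ⟨K, hK, hX⟩ := h2.2.2.2.2.2.2.2.2.1
  have hfinP := h2.2.2.2.2.2.2.2.2.2
  have hXX1 := h2.2.2.2.2.2.1
  have hXX2 := h2.2.1
  set C : ℝ := 13 * (256 * Real.exp 13) * (128 * Real.exp K) with hC
  have hC1 : 1 ≤ C := by
    have e1 : 1 ≤ Real.exp 13 := Real.one_le_exp (by norm_num)
    have e2 : 1 ≤ Real.exp K := Real.one_le_exp hK.le
    have e3 : 1 ≤ Real.exp 13 * Real.exp K := by nlinarith
    have e4 : C = 13 * 256 * 128 * (Real.exp 13 * Real.exp K) := by rw [hC]; ring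
    rw [e4]
    linarith
  refine ⟨max B1 (max B2 B3), max (max T1 T2) (max T3 (max (2 * T4 + 10) ((200 + 64 * C) ^ 8))),
    hB1.trans (le_max_left _ _), ?_, ?_⟩
  · refine le_trans ?_ (le_max_right _ _)
    refine le_trans ?_ (le_max_right _ _)
    refine le_trans ?_ (le_max_right _ _)
    calc (200 : ℝ) ≤ 200 + 64 * C := by linarith
      _ ≤ (200 + 64 * C) ^ 8 := le_self_pow₀ (by linarith) (by norm_num)
  intro c T hc hT
  have hT1' : T1 ≤ T := ((le_max_left _ _).trans (le_max_left _ _)).trans hT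
  have hT2' : T2 ≤ T := ((le_max_right _ _).trans (le_max_left _ _)).trans hT
  have hT3' : T3 ≤ T := ((le_max_left _ _).trans (le_max_right _ _)).trans hT
  have hT4' : 2 * T4 + 10 ≤ T :=
    (((le_max_left _ _).trans (le_max_right _ _)).trans (le_max_right _ _)).trans hT
  have hT5' : (200 + 64 * C) ^ 8 ≤ T :=
    (((le_max_right _ _).trans (le_max_right _ _)).trans (le_max_right _ _)).trans hT
  obtain ⟨a, ha1, ha2, hga⟩ := hgood c hc (T / 2) (by linarith)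
  obtain ⟨b, hb1, hb2, hgb⟩ := hgood c hc (3 * T / 2) (by linarith)
  have hfin : (PP c 1 ∩ Ioo a b).Finite :=
    (hfinP c 1 hc le_rfl b).subset (fun t ht => ⟨ht.1, ht.2.2.le⟩)
  have haT : |a - T / 2| ≤ 1 := by rw [abs_le]; constructor <;> linarith
  have hbT : |b - 3 * T / 2| ≤ 1 := by rw [abs_le]; constructor <;> linarith
  have hSS : IsS c a b hfin.toFinset := by
    intro t
    rw [Set.Finite.mem_toFinset]
    rfl
  refine ⟨a, b, hfin.toFinset, haT, hbT, hSS, ?_⟩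
  intro Δ n l Z hn hnZ hl hlZ hZ8 hZΔ hBΔ
  have hT0 : 0 < T := lt_of_lt_of_le (by positivity) hT5'
  set P : ℝ := T ^ (1 / 8 : ℝ) with hP
  have hP0 : 0 < P := Real.rpow_pos_of_pos hT0 _
  have hTP : T = P ^ 8 := by
    rw [hP, ← Real.rpow_natCast, ← Real.rpow_mul hT0.le]
    norm_num
  have hPC : 200 + 64 * C ≤ P := by
    by_contra hcon
    push Not at hcon
    have := pow_lt_pow_left₀ hcon hP0.le (by norm_num : (8 : ℕ) ≠ 0)
    linarith
  have hZP : (Z : ℝ) ≤ P := by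
    by_contra hcon
    push Not at hcon
    have := pow_lt_pow_left₀ hcon hP0.le (by norm_num : (8 : ℕ) ≠ 0)
    linarith
  have hP1 : 1 ≤ P := by linarith
  have hlog : 40 ≤ Real.log T := by
    rw [Real.le_log_iff_exp_le hT0]
    have e1 : Real.exp 40 = (Real.exp 5) ^ 8 := by
      rw [← Real.exp_nat_mul]
      norm_num
    have e2 : Real.exp 5 ≤ 200 := by
      have e3 : Real.exp 5 = Real.exp 1 ^ 5 := by
        rw [← Real.exp_nat_mul]
        norm_num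
      rw [e3]
      have := Real.exp_one_lt_d9
      calc Real.exp 1 ^ 5 ≤ 2.7182818286 ^ 5 := pow_le_pow_left₀ (Real.exp_pos _).le this.le 5
        _ ≤ 200 := by norm_num
    rw [e1]
    calc Real.exp 5 ^ 8 ≤ 200 ^ 8 := pow_le_pow_left₀ (Real.exp_pos _).le e2 8
      _ ≤ (200 + 64 * C) ^ 8 := pow_le_pow_left₀ (by norm_num) (by linarith) 8
      _ ≤ T := hT5'
  have hZ1 : (1 : ℝ) ≤ Z := by exact_mod_cast hn.trans hnZ
  have hΔ40 : 40 ≤ Δ := by nlinarith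
  have hsl : 1 ≤ √(Real.log T) := by
    rw [Real.one_le_sqrt]
    linarith
  have hBm : 1 ≤ max B1 (max B2 B3) := hB1.trans (le_max_left _ _)
  have hΔT : Δ ≤ T := by
    refine le_trans ?_ hBΔ
    calc Δ = 1 * Δ * 1 := by ring
      _ ≤ max B1 (max B2 B3) * Δ * √(Real.log T) := by gcongr
  have hB1Δ : B1 * Δ * √(Real.log T) ≤ T := by
    refine le_trans ?_ hBΔ
    have : B1 ≤ max B1 (max B2 B3) := le_max_left _ _
    gcongr
  have hB2Δ : B2 * Δ * √(Real.log T) ≤ T := by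
    refine le_trans ?_ hBΔ
    have : B2 ≤ max B1 (max B2 B3) := (le_max_left _ _).trans (le_max_right _ _)
    gcongr
  have hB3Δ : B3 * Δ * √(Real.log T) ≤ T := by
    refine le_trans ?_ hBΔ
    have : B3 ≤ max B1 (max B2 B3) := (le_max_right _ _).trans (le_max_right _ _)
    gcongr
  have hpow : ∀ m : ℕ, T ^ (-(m : ℝ)) = 1 / P ^ (8 * m) := by
    intro m
    rw [Real.rpow_neg hT0.le, Real.rpow_natCast, hTP, ← pow_mul, one_div]
  have hT12 : T ^ (-(1 / 2 : ℝ)) = 1 / P ^ 4 := by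
    rw [Real.rpow_neg hT0.le, hTP, ← Real.rpow_natCast P 8, ← Real.rpow_mul hP0.le, one_div]
    norm_num
  have hSd : Sides c T Δ a b P C :=
    { P2 := by linarith
      PC := by linarith
      C1 := hC1
      TP := hTP
      ha := haT
      hb := hbT
      hΔ := by linarith
      hΔT := hΔT
      edge := by
        intro e he σ hσ1 hσ4
        have h5 := hE T Δ hT3' (by linarith) hB3Δ e
          (by rcases he with he | he
              · left; rw [he]; exact haT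
              · right; rw [he]; exact hbT) σ hσ1 hσ4
        have h6 : FF 0 (⟨σ, e⟩ : ℂ) = 1 := by unfold FF; simp
        rw [h6, one_mul] at h5
        have h7 : T ^ (-(6 : ℝ)) = 1 / P ^ 48 := by
          rw [show (-(6 : ℝ)) = -((6 : ℕ) : ℝ) by norm_num, hpow]
        rw [← h7]
        exact h5
      wbd := by
        intro y hy
        have h5 := norm_w_le hX hc (P := P) (y := y) (by linarith) hy
        calc 13 * (256 * Real.exp 13) * ‖ww c 1 (⟨4, y⟩ : ℂ)‖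
            ≤ 13 * (256 * Real.exp 13) * (128 * Real.exp K / P ^ 28) := by gcongr
          _ = C / P ^ 28 := by rw [hC]; ring
      xx1 := by
        intro s hs1 hs4 hsi
        have h5 : 1 ≤ ‖XX s‖ := by
          rcases eq_or_lt_of_le hs1 with h | h
          · have : cp s.im = s := by
              apply Complex.ext
              · rw [cp_re, h]
              · rw [cp_im]
            rw [← this, hXX2]
          · exact (hXX1 s h hs4 hsi).le
        unfold ww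
        rw [pow_one, norm_mul, hc, one_mul, norm_inv]
        exact inv_le_one_of_one_le₀ h5 }
  have hx0 : (0 : ℝ) < (n : ℝ) / (l : ℝ) :=
    div_pos (by exact_mod_cast hn) (by exact_mod_cast hl)
  rw [hT12]
  exact ⟨mono_zero h1 h2 hc hSd hga hgb _ hSS hn hnZ hl hlZ hZP hlog hZΔ
      (hG T Δ a b _ hT1' (by linarith) hB1Δ haT hbT hx0),
    mono_one h1 h2 hc hSd hga hgb _ hSS hn hnZ hl hlZ hZP
      (hZ T Δ a b n l Z hT2' hB2Δ haT hbT hn hnZ hl hlZ hZ8 hZΔ)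
      (hZ T Δ a b l n Z hT2' hB2Δ haT hbT hl hlZ hn hnZ hZ8 hZΔ)⟩

end Pool.Agent.TH336.ER
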