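import Pool.Agent.TH336.ER.Stm

/-!
Moments of zeta on every ray: discrete mean values of polynomials; Hölder's inequality.
-/

set_option autoImplicit false

open Complex MeasureTheory Set Filter Topology

namespace Pool.Agent.TH336.ER

open Pool.Agent.W188.QS

theorem poly_gen (S : Finset ℝ) (W : ℝ → ℂ) (p q : ℕ → ℝ) (Z : ℕ) (Φ : ℕ → ℕ → ℂ) (M E : ℝ)
    (hM : 0 ≤ M) (hp : ∀ n : ℕ, 1 ≤ n → n ≤ Z → |p n| ≤ M) (hq : ∀ n : ℕ, 1 ≤ n → n ≤ Z → |q n| ≤ M)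
    (hΦ : ∀ n l : ℕ, 1 ≤ n → n ≤ Z → 1 ≤ l → l ≤ Z →
      ‖(∑ t ∈ S, W t * ((n : ℂ) ^ (-cp t) * (starRingEnd ℂ) ((l : ℂ) ^ (-cp t)))) - Φ n l‖ ≤ E) :
    ‖(∑ t ∈ S, W t * (PS p Z (cp t) * (starRingEnd ℂ) (PS q Z (cp t)))) -
      ∑ n ∈ Finset.Icc 1 Z, ∑ l ∈ Finset.Icc 1 Z, (p n : ℂ) * (q l : ℂ) * Φ n l‖ ≤
      (Z : ℝ) ^ 2 * M ^ 2 * E := by
  have h1 : (∑ t ∈ S, W t * (PS p Z (cp t) * (starRingEnd ℂ) (PS q Z (cp t)))) =
      ∑ n ∈ Finset.Icc 1 Z, ∑ l ∈ Finset.Icc 1 Z, (p n : ℂ) * (q l : ℂ) *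
        ∑ t ∈ S, W t * ((n : ℂ) ^ (-cp t) * (starRingEnd ℂ) ((l : ℂ) ^ (-cp t))) := by
    have e : ∀ t : ℝ, W t * (PS p Z (cp t) * (starRingEnd ℂ) (PS q Z (cp t))) =
        ∑ n ∈ Finset.Icc 1 Z, ∑ l ∈ Finset.Icc 1 Z, W t * (((p n : ℂ) * (n : ℂ) ^ (-cp t)) *
          ((q l : ℂ) * (starRingEnd ℂ) ((l : ℂ) ^ (-cp t)))) := by
      intro t
      unfold PS
      rw [map_sum, Finset.sum_mul_sum, Finset.mul_sum]
      refine Finset.sum_congr rfl fun n _ => ?_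
      rw [Finset.mul_sum]
      refine Finset.sum_congr rfl fun l _ => ?_
      rw [map_mul, conj_ofReal]
    rw [Finset.sum_congr rfl fun t _ => e t, Finset.sum_comm]
    refine Finset.sum_congr rfl fun n _ => ?_
    rw [Finset.sum_comm]
    refine Finset.sum_congr rfl fun l _ => ?_
    rw [Finset.mul_sum]
    refine Finset.sum_congr rfl fun t _ => ?_
    ring
  rw [h1, ← Finset.sum_sub_distrib]
  have h2 : ∀ n ∈ Finset.Icc 1 Z, ‖(∑ l ∈ Finset.Icc 1 Z, (p n : ℂ) * (q l : ℂ) *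
        ∑ t ∈ S, W t * ((n : ℂ) ^ (-cp t) * (starRingEnd ℂ) ((l : ℂ) ^ (-cp t)))) -
        ∑ l ∈ Finset.Icc 1 Z, (p n : ℂ) * (q l : ℂ) * Φ n l‖ ≤ (Z : ℝ) * (M ^ 2 * E) := by
    intro n hn
    rw [Finset.mem_Icc] at hn
    rw [← Finset.sum_sub_distrib]
    refine (norm_sum_le _ _).trans ?_
    have h3 : ∀ l ∈ Finset.Icc 1 Z, ‖(p n : ℂ) * (q l : ℂ) *
        (∑ t ∈ S, W t * ((n : ℂ) ^ (-cp t) * (starRingEnd ℂ) ((l : ℂ) ^ (-cp t)))) -
        (p n : ℂ) * (q l : ℂ) * Φ n l‖ ≤ M ^ 2 * E := by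
      intro l hl
      rw [Finset.mem_Icc] at hl
      rw [← mul_sub, norm_mul, norm_mul, norm_real, norm_real, Real.norm_eq_abs, Real.norm_eq_abs]
      have e1 := hΦ n l hn.1 hn.2 hl.1 hl.2
      have e2 := hp n hn.1 hn.2
      have e3 := hq l hl.1 hl.2
      have e4 : |p n| * |q l| ≤ M ^ 2 := by
        rw [pow_two]
        exact mul_le_mul e2 e3 (abs_nonneg _) hM
      exact mul_le_mul e4 e1 (norm_nonneg _) (by positivity)
    refine (Finset.sum_le_sum h3).trans ?_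
    rw [Finset.sum_const, Nat.card_Icc, nsmul_eq_mul]
    simp
  refine (norm_sum_le _ _).trans ?_
  refine (Finset.sum_le_sum h2).trans ?_
  rw [Finset.sum_const, Nat.card_Icc, nsmul_eq_mul]
  simp only [Nat.add_sub_cancel]
  apply le_of_eq
  ring

theorem sum_diag (p q : ℕ → ℝ) (Z : ℕ) (X : ℂ) :
    ∑ n ∈ Finset.Icc 1 Z, ∑ l ∈ Finset.Icc 1 Z, (p n : ℂ) * (q l : ℂ) *
      (X * (if n = l then 1 / (l : ℂ) else 0)) =
    X * ((∑ n ∈ Finset.Icc 1 Z, p n * q n / (n : ℝ) : ℝ) : ℂ) := by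
  push_cast
  rw [Finset.mul_sum]
  refine Finset.sum_congr rfl fun n hn => ?_
  rw [Finset.sum_eq_single n]
  · rw [if_pos rfl]
    ring
  · intro l _ hl
    rw [if_neg (Ne.symm hl)]
    ring
  · intro h
    exact absurd hn h

theorem sum_div (p : ℕ → ℝ) (Z l : ℕ) (hl : l ∈ Finset.Icc 1 Z) :
    ∑ n ∈ Finset.Icc 1 Z, (if n ∣ l then (p n : ℂ) else 0) =
      ((∑ n ∈ l.divisors, p n : ℝ) : ℂ) := by
  rw [Finset.mem_Icc] at hl
  push_cast
  rw [← Finset.sum_filter]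
  refine Finset.sum_congr ?_ fun _ _ => rfl
  ext n
  rw [Finset.mem_filter, Finset.mem_Icc, Nat.mem_divisors]
  constructor
  · rintro ⟨_, h⟩
    exact ⟨h, by omega⟩
  · rintro ⟨h, _⟩
    refine ⟨⟨Nat.pos_of_dvd_of_pos h (by omega), (Nat.le_of_dvd (by omega) h).trans hl.2⟩, h⟩

theorem sum_zeta (p q : ℕ → ℝ) (Z : ℕ) (X c : ℂ) :
    ∑ n ∈ Finset.Icc 1 Z, ∑ l ∈ Finset.Icc 1 Z, (p n : ℂ) * (q l : ℂ) *
      (X * ((if n ∣ l then 1 / (l : ℂ) else 0) + c * (if l ∣ n then 1 / (n : ℂ) else 0))) =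
    X * (((∑ l ∈ Finset.Icc 1 Z, q l / (l : ℝ) * ∑ n ∈ l.divisors, p n : ℝ) : ℂ) +
      c * ((∑ n ∈ Finset.Icc 1 Z, p n / (n : ℝ) * ∑ l ∈ n.divisors, q l : ℝ) : ℂ)) := by
  have h1 : ∑ n ∈ Finset.Icc 1 Z, ∑ l ∈ Finset.Icc 1 Z, (p n : ℂ) * (q l : ℂ) *
      (X * ((if n ∣ l then 1 / (l : ℂ) else 0) + c * (if l ∣ n then 1 / (n : ℂ) else 0))) =
      X * ((∑ l ∈ Finset.Icc 1 Z, (q l : ℂ) / (l : ℂ) * ∑ n ∈ Finset.Icc 1 Z, (if n ∣ l then (p n : ℂ) else 0)) +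
      c * (∑ n ∈ Finset.Icc 1 Z, (p n : ℂ) / (n : ℂ) * ∑ l ∈ Finset.Icc 1 Z, (if l ∣ n then (q l : ℂ) else 0))) := by
    rw [mul_add, ← mul_assoc X c, Finset.mul_sum, Finset.mul_sum]
    simp only [Finset.mul_sum]
    rw [Finset.sum_comm (s := Finset.Icc 1 Z) (t := Finset.Icc 1 Z)
      (f := fun l n => X * ((q l : ℂ) / (l : ℂ) * (if n ∣ l then (p n : ℂ) else 0)))]
    rw [← Finset.sum_add_distrib]
    refine Finset.sum_congr rfl fun n _ => ?_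
    rw [← Finset.sum_add_distrib]
    refine Finset.sum_congr rfl fun l _ => ?_
    split_ifs <;> ring
  rw [h1]
  congr 2
  · push_cast
    refine Finset.sum_congr rfl fun l hl => ?_
    rw [sum_div p Z l hl]
    push_cast
    rfl
  · congr 1
    push_cast
    refine Finset.sum_congr rfl fun n hn => ?_
    rw [sum_div q Z n hn]
    push_cast
    rfl

/-- Hölder's inequality with weights -/
theorem holder_w (S : Finset ℝ) (w f y : ℝ → ℝ) (hw : ∀ t ∈ S, 0 ≤ w t) (hf : ∀ t ∈ S, 0 ≤ f t)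
    (hy : ∀ t ∈ S, 0 ≤ y t) (a b : ℕ) (hb : 1 ≤ b) (hab : b < a) :
    (∑ t ∈ S, w t * (f t * y t ^ (a - b))) ^ ((a : ℝ) / b) ≤
      (∑ t ∈ S, w t * f t ^ ((a : ℝ) / b)) * (∑ t ∈ S, w t * y t ^ a) ^ ((a : ℝ) / b - 1) := by
  have hb0 : (0 : ℝ) < b := by exact_mod_cast hb
  have hab' : (b : ℝ) < a := by exact_mod_cast hab
  have ha0 : (0 : ℝ) < a := by linarith
  set k : ℝ := (a : ℝ) / b with hk
  have hk1 : 1 < k := by
    rw [hk, lt_div_iff₀ hb0]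
    linarith
  have hk0 : 0 < k := by linarith
  set q : ℝ := k / (k - 1) with hq
  have hkq : k.HolderConjugate q := Real.HolderConjugate.conjExponent hk1
  have hq0 : 0 < q := div_pos hk0 (by linarith)
  have e0 : 1 / k + 1 / q = 1 := by
    have := hkq.inv_add_inv_eq_one
    rw [one_div, one_div]
    exact this
  have h1 := Real.inner_le_Lp_mul_Lq_of_nonneg S hkq
    (f := fun t => w t ^ (1 / k) * f t) (g := fun t => w t ^ (1 / q) * y t ^ (a - b))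
    (fun t ht => mul_nonneg (Real.rpow_nonneg (hw t ht) _) (hf t ht))
    (fun t ht => mul_nonneg (Real.rpow_nonneg (hw t ht) _) (pow_nonneg (hy t ht) _))
  have h2 : ∑ t ∈ S, (w t ^ (1 / k) * f t) * (w t ^ (1 / q) * y t ^ (a - b)) =
      ∑ t ∈ S, w t * (f t * y t ^ (a - b)) := by
    refine Finset.sum_congr rfl fun t ht => ?_
    have e1 : w t ^ (1 / k) * w t ^ (1 / q) = w t := by
      rw [← Real.rpow_add_of_nonneg (hw t ht) (by positivity) (by positivity), e0, Real.rpow_one]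
    calc (w t ^ (1 / k) * f t) * (w t ^ (1 / q) * y t ^ (a - b)) =
        (w t ^ (1 / k) * w t ^ (1 / q)) * (f t * y t ^ (a - b)) := by ring
      _ = w t * (f t * y t ^ (a - b)) := by rw [e1]
  have h3 : ∑ t ∈ S, (w t ^ (1 / k) * f t) ^ k = ∑ t ∈ S, w t * f t ^ k := by
    refine Finset.sum_congr rfl fun t ht => ?_
    rw [Real.mul_rpow (Real.rpow_nonneg (hw t ht) _) (hf t ht), ← Real.rpow_mul (hw t ht),
      one_div, inv_mul_cancel₀ hk0.ne', Real.rpow_one]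
  have h4 : ∑ t ∈ S, (w t ^ (1 / q) * y t ^ (a - b)) ^ q = ∑ t ∈ S, w t * y t ^ a := by
    refine Finset.sum_congr rfl fun t ht => ?_
    rw [Real.mul_rpow (Real.rpow_nonneg (hw t ht) _) (pow_nonneg (hy t ht) _),
      ← Real.rpow_mul (hw t ht), one_div, inv_mul_cancel₀ hq0.ne', Real.rpow_one,
      ← Real.rpow_natCast, ← Real.rpow_mul (hy t ht)]
    have e1 : ((a - b : ℕ) : ℝ) * q = (a : ℕ) := by
      rw [Nat.cast_sub hab.le, hq, hk]
      have : (a : ℝ) / b - 1 = (a - b) / b := by field_simp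
      rw [this]
      have h5 : (a : ℝ) - b ≠ 0 := by linarith
      field_simp
    rw [e1, Real.rpow_natCast]
  rw [h2, h3, h4] at h1
  have hS0 : 0 ≤ ∑ t ∈ S, w t * (f t * y t ^ (a - b)) :=
    Finset.sum_nonneg fun t ht => mul_nonneg (hw t ht) (mul_nonneg (hf t ht) (pow_nonneg (hy t ht) _))
  have hS1 : 0 ≤ ∑ t ∈ S, w t * f t ^ k :=
    Finset.sum_nonneg fun t ht => mul_nonneg (hw t ht) (Real.rpow_nonneg (hf t ht) _)
  have hS2 : 0 ≤ ∑ t ∈ S, w t * y t ^ a :=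
    Finset.sum_nonneg fun t ht => mul_nonneg (hw t ht) (pow_nonneg (hy t ht) _)
  have h5 := Real.rpow_le_rpow hS0 h1 hk0.le
  refine h5.trans (le_of_eq ?_)
  rw [Real.mul_rpow (Real.rpow_nonneg hS1 _) (Real.rpow_nonneg hS2 _), ← Real.rpow_mul hS1,
    ← Real.rpow_mul hS2, one_div, inv_mul_cancel₀ hk0.ne', Real.rpow_one]
  congr 2
  rw [hq]
  have : k - 1 ≠ 0 := by linarith
  field_simp

/-- on the line of `u` the value of zeta is real times `u` -/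
theorem line_real (h2 : StLine) {u : ℂ} (hu : ‖u‖ = 1) {t : ℝ} (ht : 1 ≤ t)
    (hw : ww ((starRingEnd ℂ) u ^ 2) 1 (cp t) = 1) :
    riemannZeta (cp t) * (starRingEnd ℂ) u =
      (((riemannZeta (cp t) * (starRingEnd ℂ) u).re : ℝ) : ℂ) := by
  have hX1 := h2.2.1 t
  have hX2 := h2.2.2.1 t ht
  have hX0 : XX (cp t) ≠ 0 := by
    intro h
    rw [h, norm_zero] at hX1
    norm_num at hX1
  have hXc : XX (cp t) = (starRingEnd ℂ) u ^ 2 := by
    unfold ww at hw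
    rw [pow_one] at hw
    field_simp at hw
    exact hw.symm
  have huu : (starRingEnd ℂ) u * u = 1 := by
    rw [Complex.conj_mul', hu]
    norm_num
  rw [eq_comm, ← Complex.conj_eq_iff_re]
  rw [map_mul, hX2, hXc]
  simp only [RingHomCompTriple.comp_apply, RingHom.id_apply]
  linear_combination (starRingEnd ℂ) u * riemannZeta (cp t) * huu

end Pool.Agent.TH336.ER
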