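import Pool.Agent.TH336.ER.Defs

/-!
Moments of zeta on every ray: statements of the parts.
-/

set_option autoImplicit false

open Complex MeasureTheory Set Filter Topology

namespace Pool.Agent.TH336.ER

open Pool.Agent.W188.QS Pool.Agent.H306R2

/-- GAUSS -/
def GaussFp : Prop := ∃ B T₀ : ℝ, 1 ≤ B ∧ 100 ≤ T₀ ∧ ∀ T Δ a b z : ℝ, T₀ ≤ T → 1 ≤ Δ →
    B * Δ * √(Real.log T) ≤ T → |a - T / 2| ≤ 1 → |b - 3 * T / 2| ≤ 1 → 0 < z →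
    ‖(∫ y in a..b, (z : ℂ) ^ (-fp y) * GG T Δ (fp y)) -
      ((√Real.pi * Δ * Real.exp (-(Δ ^ 2 * Real.log z ^ 2 / 4)) : ℝ) : ℂ) * (z : ℂ) ^ (-cp T)‖ ≤
      z ^ (-(4 : ℝ)) * T ^ (-(6 : ℝ))

/-- GAUSS-ZETA -/
def GaussZeta : Prop := ∃ B T₀ : ℝ, 1 ≤ B ∧ 100 ≤ T₀ ∧ ∀ (T Δ a b : ℝ) (n l Z : ℕ), T₀ ≤ T →
    B * Δ * √(Real.log T) ≤ T → |a - T / 2| ≤ 1 → |b - 3 * T / 2| ≤ 1 →
    1 ≤ n → n ≤ Z → 1 ≤ l → l ≤ Z → (Z : ℝ) ^ 8 ≤ T → (Z : ℝ) * Real.log T ≤ Δ →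
    ‖(∫ y in a..b, riemannZeta (fp y) * (((n : ℝ) / (l : ℝ) : ℝ) : ℂ) ^ (-fp y) * GG T Δ (fp y)) -
      (if n ∣ l then ((√Real.pi * Δ : ℝ) : ℂ) else 0)‖ ≤ T ^ (-(2 : ℝ))

/-- MONO: discrete mean values of monomials -/
def StMono : Prop := ∃ B T₀ : ℝ, 1 ≤ B ∧ 200 ≤ T₀ ∧ ∀ (c : ℂ) (T : ℝ), ‖c‖ = 1 → T₀ ≤ T →
    ∃ (a b : ℝ) (S : Finset ℝ), |a - T / 2| ≤ 1 ∧ |b - 3 * T / 2| ≤ 1 ∧ IsS c a b S ∧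
    ∀ (Δ : ℝ) (n l Z : ℕ), 1 ≤ n → n ≤ Z → 1 ≤ l → l ≤ Z → (Z : ℝ) ^ 8 ≤ T →
      (Z : ℝ) * Real.log T ≤ Δ → B * Δ * √(Real.log T) ≤ T →
      ‖(∑ t ∈ S, ((wg T Δ t : ℝ) : ℂ) *
          ((n : ℂ) ^ (-cp t) * (starRingEnd ℂ) ((l : ℂ) ^ (-cp t)))) -
        ((√Real.pi * Δ : ℝ) : ℂ) * (if n = l then 1 / (l : ℂ) else 0)‖ ≤ T ^ (-(1 / 2 : ℝ)) ∧
      ‖(∑ t ∈ S, ((wg T Δ t : ℝ) : ℂ) * (riemannZeta (cp t) *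
          ((n : ℂ) ^ (-cp t) * (starRingEnd ℂ) ((l : ℂ) ^ (-cp t))))) -
        ((√Real.pi * Δ : ℝ) : ℂ) * ((if n ∣ l then 1 / (l : ℂ) else 0) +
          (starRingEnd ℂ) c * (if l ∣ n then 1 / (n : ℂ) else 0))‖ ≤ T ^ (-(1 / 2 : ℝ))

/-- CENTRE: Gaussian average with centre `T` over the sample points on the line of `u`, positive part -/
def StCentre (k κ : ℝ) : Prop := ∃ c₁ B T₀ : ℝ, 0 < c₁ ∧ 1 ≤ B ∧ ∀ (u : ℂ) (T Δ : ℝ), ‖u‖ = 1 →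
    T₀ ≤ T → Real.log T ^ 2 ≤ Δ → B * Δ * √(Real.log T) ≤ T →
    ∃ (α β : ℝ) (S : Finset ℝ), |α - T / 2| ≤ 1 ∧ |β - 3 * T / 2| ≤ 1 ∧
      IsS ((starRingEnd ℂ) u ^ 2) α β S ∧
      c₁ * (Δ * Real.log Δ ^ κ) ≤
        ∑ t ∈ S, wg T Δ t * (max (riemannZeta (cp t) * (starRingEnd ℂ) u).re 0) ^ k

/-- RAYS: the lower bound on every ray -/
def StRays (k κ : ℝ) : Prop := ∃ c B T₀ : ℝ, 0 < c ∧ ∀ T U : ℝ, T₀ ≤ T → Real.log T ^ B ≤ U → U ≤ T →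
    ∀ u : ℂ, ‖u‖ = 1 →
      c * (U * Real.log T * Real.log U ^ κ) ≤
        ∑ᶠ t ∈ {t : ℝ | T < t ∧ t ≤ T + U ∧ ∃ r : ℝ, 0 < r ∧
          riemannZeta (1 / 2 + t * I) = r * u}, ‖riemannZeta (1 / 2 + t * I)‖ ^ k

end Pool.Agent.TH336.ER
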